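import Pool.Agent.TH677.EF.Sim

/-! # Extension axioms of size at most 3 -/

set_option autoImplicit false

namespace Pool.Agent.TH677.EF

open Pool.Agent.H555R2.PF Pool.Agent.H555R2.PF.Fm

/-- names for the subformulas, starting with `N`: the name of the formula and the definitions of
the new names, the last one first -/
def flat : Fm → ℕ → ℕ × List (ℕ × Fm)
  | .var n, _ => (n, [])
  | .neg A, N => (N + (flat A N).2.length,
      (N + (flat A N).2.length, .neg (.var (flat A N).1)) :: (flat A N).2)
  | .and A B, N => (N + (flat A N).2.length + (flat B (N + (flat A N).2.length)).2.length,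
      (N + (flat A N).2.length + (flat B (N + (flat A N).2.length)).2.length,
        .and (.var (flat A N).1) (.var (flat B (N + (flat A N).2.length)).1)) ::
        ((flat B (N + (flat A N).2.length)).2 ++ (flat A N).2))
  | .or A B, N => (N + (flat A N).2.length + (flat B (N + (flat A N).2.length)).2.length,
      (N + (flat A N).2.length + (flat B (N + (flat A N).2.length)).2.length,
        .or (.var (flat A N).1) (.var (flat B (N + (flat A N).2.length)).1)) ::
        ((flat B (N + (flat A N).2.length)).2 ++ (flat A N).2))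
  | .imp A B, N => (N + (flat A N).2.length + (flat B (N + (flat A N).2.length)).2.length,
      (N + (flat A N).2.length + (flat B (N + (flat A N).2.length)).2.length,
        .imp (.var (flat A N).1) (.var (flat B (N + (flat A N).2.length)).1)) ::
        ((flat B (N + (flat A N).2.length)).2 ++ (flat A N).2))

theorem wfe_append {A : Fm} {E₁ E₂ : List (ℕ × Fm)} (h1 : WFE A E₁) (h2 : WFE A E₂)
    (h : ∀ p ∈ E₁, ∀ p' ∈ E₂, p'.1 ≠ p.1 ∧ p.1 ∉ p'.2.vars) : WFE A (E₁ ++ E₂) := by
  induction E₁ with
  | nil => exact h2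
  | cons p E₁ ih =>
    obtain ⟨q, ψ⟩ := p
    refine ⟨⟨h1.1.1, h1.1.2.1, fun p' hp' => ?_⟩, ih h1.2 fun p hp =>
      h p (List.mem_cons_of_mem _ hp)⟩
    rcases List.mem_append.1 hp' with hp' | hp'
    · exact h1.1.2.2 p' hp'
    · exact h (q, ψ) (by simp) p' hp'

/-- the properties of `flat` -/
structure FlatOK (A B : Fm) (N : ℕ) : Prop where
  root : (flat B N).1 ∈ B.vars ∨ (N ≤ (flat B N).1 ∧ (flat B N).1 < N + (flat B N).2.length)
  key : ∀ p ∈ (flat B N).2, N ≤ p.1 ∧ p.1 < N + (flat B N).2.length
  vars : ∀ p ∈ (flat B N).2, ∀ n ∈ p.2.vars, n < p.1 ∧ (n ∈ B.vars ∨ N ≤ n)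
  size : ∀ p ∈ (flat B N).2, p.2.size ≤ 3
  len : (flat B N).2.length + 1 ≤ B.size
  wfe : WFE A (flat B N).2

theorem FlatOK.lt {A B : Fm} {N : ℕ} (h : FlatOK A B N) (hB : ∀ n ∈ B.vars, n < N) :
    (flat B N).1 < N + (flat B N).2.length := by
  rcases h.root with h1 | h1
  · have := hB _ h1
    omega
  · exact h1.2

theorem FlatOK.binary {A B C : Fm} {N N' : ℕ} (hN' : N' = N + (flat B N).2.length)
    (hA : ∀ n ∈ A.vars, n < N) (hB : ∀ n ∈ B.vars, n < N) (hC : ∀ n ∈ C.vars, n < N)
    (h1 : FlatOK A B N) (h2 : FlatOK A C N') (op : Fm → Fm → Fm)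
    (hops : ∀ X Y, (op X Y).size = X.size + Y.size + 1)
    (hopv : ∀ X Y, (op X Y).vars = X.vars ∪ Y.vars) :
    (∀ p ∈ (N' + (flat C N').2.length, op (var (flat B N).1) (var (flat C N').1)) ::
        ((flat C N').2 ++ (flat B N).2),
      (N ≤ p.1 ∧ p.1 < N' + (flat C N').2.length + 1) ∧
      (∀ n ∈ p.2.vars, n < p.1 ∧ (n ∈ (op B C).vars ∨ N ≤ n)) ∧ p.2.size ≤ 3) ∧
    WFE A ((N' + (flat C N').2.length, op (var (flat B N).1) (var (flat C N').1)) ::
        ((flat C N').2 ++ (flat B N).2)) := by
  have hC' : ∀ n ∈ C.vars, n < N' := fun n hn => (hC n hn).trans_le (by omega)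
  have r1 := h1.lt hB
  have r2 := h2.lt hC'
  refine ⟨?_, ⟨⟨?_, ?_, ?_⟩, ?_⟩⟩
  · intro p hp
    rcases List.mem_cons.1 hp with rfl | hp
    · refine ⟨⟨by omega, by simp⟩, ?_, ?_⟩
      · intro n hn
        simp only [hopv, Fm.vars, Finset.mem_union, Finset.mem_singleton] at hn ⊢
        rcases hn with rfl | rfl
        · refine ⟨by omega, ?_⟩
          rcases h1.root with h | h
          · exact Or.inl (Or.inl h)
          · exact Or.inr h.1
        · refine ⟨by omega, ?_⟩
          rcases h2.root with h | h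
          · exact Or.inl (Or.inr h)
          · exact Or.inr (by omega)
      · simp [hops, Fm.size]
    · rcases List.mem_append.1 hp with hp | hp
      · have k := h2.key p hp
        refine ⟨⟨by omega, by omega⟩, fun n hn => ?_, h2.size p hp⟩
        obtain ⟨k1, k2⟩ := h2.vars p hp n hn
        refine ⟨k1, ?_⟩
        simp only [hopv, Finset.mem_union]
        rcases k2 with k2 | k2
        · exact Or.inl (Or.inr k2)
        · exact Or.inr (by omega)
      · have k := h1.key p hp
        refine ⟨⟨by omega, by omega⟩, fun n hn => ?_, h1.size p hp⟩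
        obtain ⟨k1, k2⟩ := h1.vars p hp n hn
        refine ⟨k1, ?_⟩
        simp only [hopv, Finset.mem_union]
        rcases k2 with k2 | k2
        · exact Or.inl (Or.inl k2)
        · exact Or.inr k2
  · simp only [hopv, Fm.vars, Finset.mem_union, Finset.mem_singleton]
    omega
  · intro h
    have := hA _ h
    omega
  · intro p hp
    rcases List.mem_append.1 hp with hp | hp
    · have k := h2.key p hp
      refine ⟨by omega, fun h => ?_⟩
      have := (h2.vars p hp _ h).1
      omega
    · have k := h1.key p hp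
      refine ⟨by omega, fun h => ?_⟩
      have := (h1.vars p hp _ h).1
      omega
  · refine wfe_append h2.wfe h1.wfe fun p hp p' hp' => ?_
    have k := h2.key p hp
    have k' := h1.key p' hp'
    refine ⟨by omega, fun h => ?_⟩
    have := (h1.vars p' hp' _ h).1
    omega

theorem flatOK {A : Fm} : ∀ (B : Fm) (N : ℕ), (∀ n ∈ A.vars, n < N) → (∀ n ∈ B.vars, n < N) →
    FlatOK A B N := by
  intro B
  induction B with
  | var n =>
    intro N hA hB
    exact ⟨Or.inl (by simp [flat, vars]), by simp [flat], by simp [flat], by simp [flat],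
      by simp [flat, size], trivial⟩
  | neg B ih =>
    intro N hA hB
    have h1 := ih N hA hB
    have r1 := h1.lt hB
    refine ⟨Or.inr ?_, ?_, ?_, ?_, ?_, ?_⟩
    · simp only [flat, List.length_cons]; omega
    · intro p hp
      simp only [flat, List.length_cons] at hp ⊢
      rcases List.mem_cons.1 hp with rfl | hp
      · simp only; omega
      · have := h1.key p hp; omega
    · intro p hp n hn
      simp only [flat] at hp
      rcases List.mem_cons.1 hp with rfl | hp
      · simp only [vars, Finset.mem_singleton] at hn ⊢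
        subst hn
        refine ⟨r1, ?_⟩
        rcases h1.root with h | h
        · exact Or.inl h
        · exact Or.inr h.1
      · exact h1.vars p hp n hn
    · intro p hp
      simp only [flat] at hp
      rcases List.mem_cons.1 hp with rfl | hp
      · simp [size]
      · exact h1.size p hp
    · have := h1.len
      simp only [flat, List.length_cons, size]; omega
    · refine ⟨⟨?_, ?_, ?_⟩, h1.wfe⟩
      · simp only [vars, Finset.mem_singleton]; omega
      · intro h
        have := hA _ h
        omega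
      · intro p hp
        have k := h1.key p hp
        refine ⟨by omega, fun h => ?_⟩
        have := (h1.vars p hp _ h).1
        omega
  | and B C ihB ihC =>
    intro N hA hBC
    have hB : ∀ n ∈ B.vars, n < N := fun n hn => hBC n (by simp [vars, hn])
    have hC : ∀ n ∈ C.vars, n < N := fun n hn => hBC n (by simp [vars, hn])
    have h1 := ihB N hA hB
    have h2 := ihC (N + (flat B N).2.length) (fun n hn => (hA n hn).trans_le (by omega))
      (fun n hn => (hC n hn).trans_le (by omega))
    obtain ⟨g1, g2⟩ := FlatOK.binary rfl hA hB hC h1 h2 and (fun _ _ => rfl) (fun _ _ => rfl)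
    have l1 := h1.len
    have l2 := h2.len
    refine ⟨Or.inr ?_, ?_, ?_, ?_, ?_, g2⟩
    · simp only [flat, List.length_cons, List.length_append]; omega
    · intro p hp
      have := (g1 p hp).1
      simp only [flat, List.length_cons, List.length_append]; omega
    · exact fun p hp n hn => (g1 p hp).2.1 n hn
    · exact fun p hp => (g1 p hp).2.2
    · simp only [flat, List.length_cons, List.length_append, size]; omega
  | or B C ihB ihC =>
    intro N hA hBC
    have hB : ∀ n ∈ B.vars, n < N := fun n hn => hBC n (by simp [vars, hn])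
    have hC : ∀ n ∈ C.vars, n < N := fun n hn => hBC n (by simp [vars, hn])
    have h1 := ihB N hA hB
    have h2 := ihC (N + (flat B N).2.length) (fun n hn => (hA n hn).trans_le (by omega))
      (fun n hn => (hC n hn).trans_le (by omega))
    obtain ⟨g1, g2⟩ := FlatOK.binary rfl hA hB hC h1 h2 or (fun _ _ => rfl) (fun _ _ => rfl)
    have l1 := h1.len
    have l2 := h2.len
    refine ⟨Or.inr ?_, ?_, ?_, ?_, ?_, g2⟩
    · simp only [flat, List.length_cons, List.length_append]; omega
    · intro p hp
      have := (g1 p hp).1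
      simp only [flat, List.length_cons, List.length_append]; omega
    · exact fun p hp n hn => (g1 p hp).2.1 n hn
    · exact fun p hp => (g1 p hp).2.2
    · simp only [flat, List.length_cons, List.length_append, size]; omega
  | imp B C ihB ihC =>
    intro N hA hBC
    have hB : ∀ n ∈ B.vars, n < N := fun n hn => hBC n (by simp [vars, hn])
    have hC : ∀ n ∈ C.vars, n < N := fun n hn => hBC n (by simp [vars, hn])
    have h1 := ihB N hA hB
    have h2 := ihC (N + (flat B N).2.length) (fun n hn => (hA n hn).trans_le (by omega))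
      (fun n hn => (hC n hn).trans_le (by omega))
    obtain ⟨g1, g2⟩ := FlatOK.binary rfl hA hB hC h1 h2 imp (fun _ _ => rfl) (fun _ _ => rfl)
    have l1 := h1.len
    have l2 := h2.len
    refine ⟨Or.inr ?_, ?_, ?_, ?_, ?_, g2⟩
    · simp only [flat, List.length_cons, List.length_append]; omega
    · intro p hp
      have := (g1 p hp).1
      simp only [flat, List.length_cons, List.length_append]; omega
    · exact fun p hp n hn => (g1 p hp).2.1 n hn
    · exact fun p hp => (g1 p hp).2.2
    · simp only [flat, List.length_cons, List.length_append, size]; omega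

/-- the system with small definitions -/
def flatE (N : ℕ) : List (ℕ × Fm) → List (ℕ × Fm)
  | [] => []
  | (q, ψ) :: E => (q, var (flat ψ (N + (flatE N E).length)).1) ::
      ((flat ψ (N + (flatE N E).length)).2 ++ flatE N E)

/-- total size of the definitions -/
def esize (E : List (ℕ × Fm)) : ℕ := (E.map fun p => p.2.size).sum

theorem flatE_ok {A : Fm} {N : ℕ} (hA : ∀ n ∈ A.vars, n < N) : ∀ {E : List (ℕ × Fm)}, WFE A E →
    (∀ p ∈ E, p.1 < N ∧ ∀ n ∈ p.2.vars, n < N) →
    WFE A (flatE N E) ∧ (flatE N E).length ≤ esize E ∧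
    (∀ p ∈ flatE N E, p.2.size ≤ 3 ∧ ((∃ p' ∈ E, p'.1 = p.1) ∨ N ≤ p.1) ∧
      p.1 < N + (flatE N E).length ∧ (∀ n ∈ p.2.vars, n < N + (flatE N E).length) ∧
      ∀ n ∈ p.2.vars, n < N → ∃ p' ∈ E, n ∈ p'.2.vars) := by
  intro E
  induction E with
  | nil => intro _ _; exact ⟨trivial, by simp [flatE, esize], by simp [flatE]⟩
  | cons p E ih =>
    obtain ⟨q, ψ⟩ := p
    intro hw hv
    obtain ⟨i1, i2, i3⟩ := ih hw.2 (fun p hp => hv p (List.mem_cons_of_mem _ hp))
    have hq := hv (q, ψ) (by simp)
    simp only at hq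
    obtain ⟨N', hN'⟩ : ∃ N', N' = N + (flatE N E).length := ⟨_, rfl⟩
    have hψ : ∀ n ∈ ψ.vars, n < N' := fun n hn => (hq.2 n hn).trans_le (by omega)
    have f := flatOK (A := A) ψ N' (fun n hn => (hA n hn).trans_le (by omega)) hψ
    have r := f.lt hψ
    have fl := f.len
    have e : flatE N ((q, ψ) :: E) = (q, var (flat ψ N').1) :: ((flat ψ N').2 ++ flatE N E) := by
      rw [hN']; rfl
    rw [e]
    have hlen : ((q, var (flat ψ N').1) :: ((flat ψ N').2 ++ flatE N E)).length =
        (flat ψ N').2.length + (flatE N E).length + 1 := by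
      simp only [List.length_cons, List.length_append]
    refine ⟨⟨⟨?_, hw.1.2.1, ?_⟩, ?_⟩, ?_, ?_⟩
    · simp only [vars, Finset.mem_singleton]
      intro h
      rcases f.root with h1 | h1
      · exact hw.1.1 (h ▸ h1)
      · omega
    · intro p hp
      rcases List.mem_append.1 hp with hp | hp
      · have k := f.key p hp
        refine ⟨by omega, fun h => ?_⟩
        rcases (f.vars p hp _ h).2 with h1 | h1
        · exact hw.1.1 h1
        · omega
      · obtain ⟨k1, k2, k3, k4, k5⟩ := i3 p hp
        constructor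
        · rcases k2 with ⟨p', hp', k2⟩ | k2
          · rw [← k2]; exact (hw.1.2.2 p' hp').1
          · omega
        · intro h
          obtain ⟨p', hp', h'⟩ := k5 q h hq.1
          exact (hw.1.2.2 p' hp').2 h'
    · refine wfe_append f.wfe i1 fun p hp p' hp' => ?_
      have k := f.key p hp
      obtain ⟨k1, k2, k3, k4, k5⟩ := i3 p' hp'
      refine ⟨by omega, fun h => ?_⟩
      have := k4 _ h
      omega
    · rw [hlen]
      simp only [esize, List.map_cons, List.sum_cons] at i2 ⊢
      omega
    · intro p hp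
      rw [hlen]
      rcases List.mem_cons.1 hp with rfl | hp
      · refine ⟨by simp [size], Or.inl ⟨(q, ψ), by simp, rfl⟩, by omega, ?_, ?_⟩
        · intro n hn
          simp only [vars, Finset.mem_singleton] at hn
          omega
        · intro n hn hnN
          simp only [vars, Finset.mem_singleton] at hn
          refine ⟨(q, ψ), by simp, ?_⟩
          rcases f.root with h1 | h1
          · rw [hn]; exact h1
          · omega
      · rcases List.mem_append.1 hp with hp | hp
        · have k := f.key p hp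
          refine ⟨f.size p hp, Or.inr (by omega), by omega, ?_, ?_⟩
          · intro n hn
            have := (f.vars p hp n hn).1
            omega
          · intro n hn hnN
            rcases (f.vars p hp n hn).2 with h1 | h1
            · exact ⟨(q, ψ), by simp, h1⟩
            · omega
        · obtain ⟨k1, k2, k3, k4, k5⟩ := i3 p hp
          refine ⟨k1, ?_, by omega, fun n hn => ?_, fun n hn hnN => ?_⟩
          · rcases k2 with ⟨p', hp', k2⟩ | k2
            · exact Or.inl ⟨p', List.mem_cons_of_mem _ hp', k2⟩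
            · exact Or.inr k2
          · have := k4 n hn
            omega
          · obtain ⟨p', hp', h'⟩ := k5 n hn hnN
            exact ⟨p', List.mem_cons_of_mem _ hp', h'⟩

/-! ### the equations of the original system -/

variable {F : List Rule}

theorem t1 (hF : IsFrege F) : ∃ c : ℕ, ∀ (X : Fm) (M : ℕ), X.size ≤ M →
    ∀ Γ : Set Fm, Ca F Γ [iff X X] (c * M) := by
  obtain ⟨c, h⟩ := schemaC hF [] (iff (var 0) (var 0)) (by intro v _; simp [eval, iff])
  refine ⟨c, fun X M h1 Γ => ?_⟩
  have := h [X] M ((size_pos X).trans h1) (by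
    intro Y hY; simp at hY; rcases hY with rfl; exact h1) Γ (by simp)
  simpa [subst, asg, iff] using this

theorem t2 (hF : IsFrege F) : ∃ c : ℕ, ∀ (X A B : Fm) (M : ℕ), X.size ≤ M → A.size ≤ M →
    B.size ≤ M → ∀ Γ : Set Fm, iff X (neg A) ∈ Γ → iff A B ∈ Γ →
    Ca F Γ [iff X (neg B)] (c * M) := by
  obtain ⟨c, h⟩ := schemaC hF [iff (var 0) (neg (var 1)), iff (var 1) (var 2)]
    (iff (var 0) (neg (var 2))) (by
    intro v h; simp [eval, iff] at h ⊢; tauto)
  refine ⟨c, fun X A B M h0 h1 h2 Γ g1 g2 => ?_⟩
  have := h [X, A, B] M ((size_pos X).trans h0) (by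
    intro Z hZ; simp at hZ; rcases hZ with rfl | rfl | rfl; exacts [h0, h1, h2]) Γ (by
    intro Y hY
    simp only [List.mem_cons, List.not_mem_nil, or_false] at hY
    rcases hY with rfl | rfl
    · simpa [subst, asg, iff] using g1
    · simpa [subst, asg, iff] using g2)
  simpa [subst, asg, iff] using this

theorem t3 (hF : IsFrege F) (op : Fm → Fm → Fm)
    (hop : ∀ (σ : ℕ → Fm) X Y, (op X Y).subst σ = op (X.subst σ) (Y.subst σ))
    (hop2 : ∀ (v : ℕ → Prop) X Y X' Y', (X.eval v ↔ X'.eval v) → (Y.eval v ↔ Y'.eval v) →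
      ((op X Y).eval v ↔ (op X' Y').eval v)) :
    ∃ c : ℕ, ∀ (X A B C D : Fm) (M : ℕ), X.size ≤ M → A.size ≤ M → B.size ≤ M → C.size ≤ M →
      D.size ≤ M → ∀ Γ : Set Fm, iff X (op A C) ∈ Γ → iff A B ∈ Γ → iff C D ∈ Γ →
      Ca F Γ [iff X (op B D)] (c * M) := by
  obtain ⟨c, h⟩ := schemaC hF [iff (var 0) (op (var 1) (var 3)), iff (var 1) (var 2),
      iff (var 3) (var 4)] (iff (var 0) (op (var 2) (var 4))) (by
    intro v h
    have h1 := h _ (by simp : iff (var 0) (op (var 1) (var 3)) ∈ _)
    have h2 := h _ (by simp : iff (var 1) (var 2) ∈ _)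
    have h3 := h _ (by simp : iff (var 3) (var 4) ∈ _)
    have h4 := hop2 v (var 1) (var 3) (var 2) (var 4) ⟨h2.1, h2.2⟩ ⟨h3.1, h3.2⟩
    exact ⟨fun g => h4.1 (h1.1 g), fun g => h1.2 (h4.2 g)⟩)
  refine ⟨c, fun X A B C D M h0 h1 h2 h3 h4 Γ g1 g2 g3 => ?_⟩
  have := h [X, A, B, C, D] M ((size_pos X).trans h0) (by
    intro Z hZ; simp at hZ; rcases hZ with rfl | rfl | rfl | rfl | rfl
    exacts [h0, h1, h2, h3, h4]) Γ (by
    intro Y hY
    simp only [List.mem_cons, List.not_mem_nil, or_false] at hY
    rcases hY with rfl | rfl | rfl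
    · simpa [subst, asg, iff, hop] using g1
    · simpa [subst, asg, iff] using g2
    · simpa [subst, asg, iff] using g3)
  simpa [subst, asg, iff, hop] using this

theorem t4 (hF : IsFrege F) : ∃ c : ℕ, ∀ (X A B : Fm) (M : ℕ), X.size ≤ M → A.size ≤ M →
    B.size ≤ M → ∀ Γ : Set Fm, iff X A ∈ Γ → iff A B ∈ Γ →
    Ca F Γ [iff X B] (c * M) := by
  obtain ⟨c, h⟩ := schemaC hF [iff (var 0) (var 1), iff (var 1) (var 2)]
    (iff (var 0) (var 2)) (by
    intro v h; simp [eval, iff] at h ⊢; tauto)
  refine ⟨c, fun X A B M h0 h1 h2 Γ g1 g2 => ?_⟩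
  have := h [X, A, B] M ((size_pos X).trans h0) (by
    intro Z hZ; simp at hZ; rcases hZ with rfl | rfl | rfl; exacts [h0, h1, h2]) Γ (by
    intro Y hY
    simp only [List.mem_cons, List.not_mem_nil, or_false] at hY
    rcases hY with rfl | rfl
    · simpa [subst, asg, iff] using g1
    · simpa [subst, asg, iff] using g2)
  simpa [subst, asg, iff] using this

theorem flat_eq (hF : IsFrege F) : ∃ c : ℕ, ∀ (G : ℕ → Fm) (M : ℕ) (Γ : Set Fm),
    (∀ n, (G n).size ≤ M) → ∀ (B : Fm) (N : ℕ), (B.subst G).size ≤ M →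
    (∀ p ∈ (flat B N).2, iff (G p.1) (p.2.subst G) ∈ Γ) →
    Ca F Γ [iff (G (flat B N).1) (B.subst G)] (B.size * (c * M)) := by
  obtain ⟨c1, h1⟩ := t1 hF
  obtain ⟨c2, h2⟩ := t2 hF
  obtain ⟨c3, h3⟩ := t3 hF and (fun _ _ _ => rfl) (fun v X Y X' Y' h h' => by
    simp only [eval]; rw [h, h'])
  obtain ⟨c4, h4⟩ := t3 hF or (fun _ _ _ => rfl) (fun v X Y X' Y' h h' => by
    simp only [eval]; rw [h, h'])
  obtain ⟨c5, h5⟩ := t3 hF imp (fun _ _ _ => rfl) (fun v X Y X' Y' h h' => by
    simp only [eval]; rw [h, h'])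
  obtain ⟨c, hc⟩ : ∃ c, c = c1 + c2 + c3 + c4 + c5 := ⟨_, rfl⟩
  refine ⟨c, fun G M Γ hG B => ?_⟩
  have k1 : c1 * M ≤ c * M := Nat.mul_le_mul_right M (by omega)
  have k2 : c2 * M ≤ c * M := Nat.mul_le_mul_right M (by omega)
  have k3 : c3 * M ≤ c * M := Nat.mul_le_mul_right M (by omega)
  have k4 : c4 * M ≤ c * M := Nat.mul_le_mul_right M (by omega)
  have k5 : c5 * M ≤ c * M := Nat.mul_le_mul_right M (by omega)
  induction B with
  | var n =>
    intro N hs hΓ
    refine (h1 (G n) M (hG n) Γ).le ?_
    simp only [size, one_mul]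
    exact k1
  | neg B ih =>
    intro N hs hΓ
    simp only [subst, size] at hs
    simp only [flat] at hΓ
    have i1 := ih N (by omega) (fun p hp => hΓ p (by simp [hp]))
    have i2 := h2 (G (N + (flat B N).2.length)) (G (flat B N).1) (B.subst G) M (hG _) (hG _)
      (by omega) (Γ ∪ {Y | Y ∈ [iff (G (flat B N).1) (B.subst G)]}) (by
        left
        have := hΓ _ (List.mem_cons_self ..)
        simpa [subst] using this) (Or.inr (by simp))
    refine (i1.cut i2).le ?_
    simp only [size]
    rw [add_mul, one_mul]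
    omega
  | and B C ihB ihC =>
    intro N hs hΓ
    simp only [subst, size] at hs
    simp only [flat] at hΓ
    have i1 := ihB N (by omega) (fun p hp => hΓ p (by simp [hp]))
    have i1' := ihC (N + (flat B N).2.length) (by omega) (fun p hp => hΓ p (by simp [hp]))
    have i2 := h3 (G (N + (flat B N).2.length + (flat C (N + (flat B N).2.length)).2.length))
      (G (flat B N).1) (B.subst G) (G (flat C (N + (flat B N).2.length)).1) (C.subst G) M
      (hG _) (hG _) (by omega) (hG _) (by omega)
      (Γ ∪ {Y | Y ∈ [iff (G (flat B N).1) (B.subst G)] ++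
        [iff (G (flat C (N + (flat B N).2.length)).1) (C.subst G)]}) (by
        left
        have := hΓ _ (List.mem_cons_self ..)
        simpa [subst] using this) (Or.inr (by simp)) (Or.inr (by simp))
    refine ((i1.append i1').cut i2).le ?_
    simp only [size]
    rw [add_mul, add_mul, one_mul]
    omega
  | or B C ihB ihC =>
    intro N hs hΓ
    simp only [subst, size] at hs
    simp only [flat] at hΓ
    have i1 := ihB N (by omega) (fun p hp => hΓ p (by simp [hp]))
    have i1' := ihC (N + (flat B N).2.length) (by omega) (fun p hp => hΓ p (by simp [hp]))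
    have i2 := h4 (G (N + (flat B N).2.length + (flat C (N + (flat B N).2.length)).2.length))
      (G (flat B N).1) (B.subst G) (G (flat C (N + (flat B N).2.length)).1) (C.subst G) M
      (hG _) (hG _) (by omega) (hG _) (by omega)
      (Γ ∪ {Y | Y ∈ [iff (G (flat B N).1) (B.subst G)] ++
        [iff (G (flat C (N + (flat B N).2.length)).1) (C.subst G)]}) (by
        left
        have := hΓ _ (List.mem_cons_self ..)
        simpa [subst] using this) (Or.inr (by simp)) (Or.inr (by simp))
    refine ((i1.append i1').cut i2).le ?_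
    simp only [size]
    rw [add_mul, add_mul, one_mul]
    omega
  | imp B C ihB ihC =>
    intro N hs hΓ
    simp only [subst, size] at hs
    simp only [flat] at hΓ
    have i1 := ihB N (by omega) (fun p hp => hΓ p (by simp [hp]))
    have i1' := ihC (N + (flat B N).2.length) (by omega) (fun p hp => hΓ p (by simp [hp]))
    have i2 := h5 (G (N + (flat B N).2.length + (flat C (N + (flat B N).2.length)).2.length))
      (G (flat B N).1) (B.subst G) (G (flat C (N + (flat B N).2.length)).1) (C.subst G) M
      (hG _) (hG _) (by omega) (hG _) (by omega)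
      (Γ ∪ {Y | Y ∈ [iff (G (flat B N).1) (B.subst G)] ++
        [iff (G (flat C (N + (flat B N).2.length)).1) (C.subst G)]}) (by
        left
        have := hΓ _ (List.mem_cons_self ..)
        simpa [subst] using this) (Or.inr (by simp)) (Or.inr (by simp))
    refine ((i1.append i1').cut i2).le ?_
    simp only [size]
    rw [add_mul, add_mul, one_mul]
    omega

theorem flatE_eq (hF : IsFrege F) : ∃ c : ℕ, ∀ (G : ℕ → Fm) (M : ℕ) (Γ : Set Fm),
    (∀ n, (G n).size ≤ M) → ∀ (E : List (ℕ × Fm)) (N : ℕ), (∀ p ∈ E, (p.2.subst G).size ≤ M) →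
    (∀ p ∈ flatE N E, iff (G p.1) (p.2.subst G) ∈ Γ) →
    Ca F Γ (E.map fun p => iff (G p.1) (p.2.subst G)) (esize E * (c * M)) := by
  obtain ⟨c, hc⟩ := flat_eq hF
  obtain ⟨c4, h4⟩ := t4 hF
  refine ⟨c + c4, fun G M Γ hG E N => ?_⟩
  induction E with
  | nil => intro _ _; simpa [esize] using (Ca.nil : Ca F Γ [] 0)
  | cons p E ih =>
    obtain ⟨q, ψ⟩ := p
    intro hs hΓ
    simp only [flatE] at hΓ
    have i1 := ih (fun p hp => hs p (List.mem_cons_of_mem _ hp)) (fun p hp => hΓ p (by simp [hp]))
    have hψ := hs (q, ψ) (by simp)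
    simp only at hψ
    have i2 := hc G M Γ hG ψ (N + (flatE N E).length) hψ (fun p hp => hΓ p (by simp [hp]))
    have i3 := h4 (G q) (G (flat ψ (N + (flatE N E).length)).1) (ψ.subst G) M (hG _) (hG _) hψ
      (Γ ∪ {Y | Y ∈ [iff (G (flat ψ (N + (flatE N E).length)).1) (ψ.subst G)]}) (by
        left
        have := hΓ _ (List.mem_cons_self ..)
        simpa [subst] using this) (Or.inr (by simp))
    refine (((i2.cut i3).append i1).sub (by simp)).le ?_
    have h5 := size_pos ψ
    have h6 : c4 * M ≤ ψ.size * (c4 * M) := Nat.le_mul_of_pos_left _ h5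
    have h7 : esize ((q, ψ) :: E) = ψ.size + esize E := by simp [esize]
    rw [h7]
    calc ψ.size * (c * M) + c4 * M + esize E * ((c + c4) * M)
        ≤ ψ.size * (c * M) + ψ.size * (c4 * M) + esize E * ((c + c4) * M) := by omega
      _ = _ := by ring

end Pool.Agent.TH677.EF
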