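import Pool.Agent.TH677.EF.PV
import Pool.Agent.TH677.EF.Flat

/-! # Frege simulates extended Frege in size `2 ^ O(s / log s)` -/

set_option autoImplicit false

namespace Pool.Agent.TH677.EF

open Pool.Agent.H555R2.PF Pool.Agent.H555R2.PF.Fm Finset

variable {F : List Rule}

theorem rnk_inj (E : List (ℕ × Fm)) : ∀ u ∈ keys E, ∀ v ∈ keys E, rnk E u = rnk E v → u = v := by
  induction E with
  | nil => intro u hu; simp [keys] at hu
  | cons p E ih =>
    obtain ⟨q, ψ⟩ := p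
    intro u hu v hv h
    simp only [keys, List.map_cons, List.toFinset_cons, Finset.mem_insert] at hu hv
    simp only [rnk] at h
    have h1 := rnk_le E u
    have h2 := rnk_le E v
    split_ifs at h with g1 g2 g2
    · rw [g1, g2]
    · omega
    · omega
    · exact ih u (hu.resolve_left g1) v (hv.resolve_left g2) h

theorem dep_card {φ : ℕ → Fm} {S : Finset ℕ} (h : ∀ u ∈ S, (φ u).size ≤ 3) :
    (dep φ S S).card ≤ S.card * 3 := by
  classical
  have h1 : dep φ S S ⊆ S.biUnion fun u => (φ u).vars.image fun v => (u, v) := by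
    intro p hp
    rw [mem_dep] at hp
    rw [mem_biUnion]
    exact ⟨p.1, hp.1, mem_image.2 ⟨p.2, hp.2.2, rfl⟩⟩
  refine (card_le_card h1).trans (card_biUnion_le_card_mul _ _ _ fun u hu => ?_)
  exact card_image_le.trans ((vars_card_le _).trans (h u hu))

theorem esize_le {A : Fm} {E : List (ℕ × Fm)} {L : List Fm} (h : EFP F A E L) :
    esize E ≤ psize L := by
  induction h with
  | nil => simp [esize, psize]
  | rule _ _ ih => rw [psize_cons]; omega
  | ext _ _ _ _ ih =>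
    rw [psize_cons]
    simp only [esize, List.map_cons, List.sum_cons, iff, size] at ih ⊢
    omega

theorem le_esize {E : List (ℕ × Fm)} : ∀ p ∈ E, p.2.size ≤ esize E := by
  induction E with
  | nil => simp
  | cons p E ih =>
    intro p' hp'
    simp only [esize, List.map_cons, List.sum_cons] at ih ⊢
    rcases List.mem_cons.1 hp' with rfl | hp'
    · omega
    · have := ih p' hp'
      omega

theorem exists_bound (A : Fm) (E : List (ℕ × Fm)) : ∃ N : ℕ, (∀ n ∈ A.vars, n < N) ∧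
    ∀ p ∈ E, p.1 < N ∧ ∀ n ∈ p.2.vars, n < N := by
  induction E with
  | nil => exact ⟨A.vars.sup id + 1, fun n hn => Nat.lt_succ_of_le (le_sup (f := id) hn), by simp⟩
  | cons p E ih =>
    obtain ⟨N, h1, h2⟩ := ih
    refine ⟨N + p.1 + p.2.vars.sup id + 1, fun n hn => (h1 n hn).trans_le (by omega), ?_⟩
    intro p' hp'
    rcases List.mem_cons.1 hp' with rfl | hp'
    · refine ⟨by omega, fun n hn => ?_⟩
      have : n ≤ p'.2.vars.sup id := le_sup (f := id) hn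
      omega
    · obtain ⟨h3, h4⟩ := h2 p' hp'
      exact ⟨by omega, fun n hn => (h4 n hn).trans_le (by omega)⟩

theorem arith_all (s C0 : ℕ) (hs : 1 ≤ s) :
    2 * (Nat.log 2 (s + 1) + 1) + C0 + 9 * (9 * s / (Nat.log 2 (s + 1) / 2 + 3) + 1 +
      gam (Nat.log 2 (s + 1) / 2)) ≤ (366 + 4 * C0) * s / Nat.log 2 (s + 1) := by
  obtain ⟨L, hL⟩ : ∃ L, L = Nat.log 2 (s + 1) := ⟨_, rfl⟩
  obtain ⟨j, hj⟩ : ∃ j, j = L / 2 := ⟨_, rfl⟩
  rw [← hL, ← hj]
  have hL1 : 1 ≤ L := by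
    rw [hL]
    exact Nat.log_pos (by norm_num) (by omega)
  have h1 : 2 ^ L ≤ s + 1 := by rw [hL]; exact Nat.pow_log_le_self 2 (by omega)
  have h2 : 2 ^ (2 * j) ≤ 2 * s := by
    calc 2 ^ (2 * j) ≤ 2 ^ L := Nat.pow_le_pow_right (by norm_num) (by omega)
      _ ≤ s + 1 := h1
      _ ≤ 2 * s := by omega
  have h3 : j + 1 ≤ 2 ^ j := Nat.lt_two_pow_self
  have h4 : L ≤ 2 * (j + 1) := by omega
  have h5 : 2 ^ j * 2 ^ j ≤ 2 * s := by rw [← pow_add, ← two_mul]; exact h2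
  have h6 : (j + 1) * 2 ^ j ≤ 2 * s := (Nat.mul_le_mul_right _ h3).trans h5
  have h7 : (j + 1) * (j + 1) ≤ 2 * s := (Nat.mul_le_mul_left _ h3).trans h6
  have h8 : j + 1 ≤ 2 * s := (Nat.le_mul_of_pos_left _ (by omega)).trans h7
  have h9 := gam_le j
  rw [Nat.le_div_iff_mul_le (by omega)]
  have a1 : L * L ≤ 8 * s := by
    calc L * L ≤ 2 * (j + 1) * (2 * (j + 1)) := Nat.mul_le_mul h4 h4
      _ = 4 * ((j + 1) * (j + 1)) := by ring
      _ ≤ 8 * s := by omega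
  have a2 : L ≤ 4 * s := by omega
  have a3 : 9 * s / (j + 3) * L ≤ 18 * s := by
    calc 9 * s / (j + 3) * L ≤ 9 * s / (j + 3) * (2 * (j + 3)) := Nat.mul_le_mul_left _ (by omega)
      _ = 2 * (9 * s / (j + 3) * (j + 3)) := by ring
      _ ≤ 2 * (9 * s) := Nat.mul_le_mul_left _ (Nat.div_mul_le_self _ _)
      _ = 18 * s := by ring
  have a4 : gam j * L ≤ 16 * s := by
    calc gam j * L ≤ 4 * 2 ^ j * (2 * (j + 1)) := Nat.mul_le_mul (by omega) h4
      _ = 8 * ((j + 1) * 2 ^ j) := by ring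
      _ ≤ 16 * s := by omega
  have a5 : C0 * L ≤ C0 * (4 * s) := Nat.mul_le_mul_left _ a2
  generalize hx : 9 * s / (j + 3) = x at *
  calc (2 * (L + 1) + C0 + 9 * (x + 1 + gam j)) * L
      = 2 * (L * L) + 11 * L + C0 * L + 9 * (x * L) + 9 * (gam j * L) := by ring
    _ ≤ 2 * (8 * s) + 11 * (4 * s) + C0 * (4 * s) + 9 * (18 * s) + 9 * (16 * s) := by omega
    _ = (366 + 4 * C0) * s := by ring

/-- total size `m` of the definitions: the factor is `2 ^ O(m / log m)` -/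
theorem sim_ext (hF : IsFrege F) : ∃ C : ℕ, ∀ (A : Fm) (E : List (ℕ × Fm)) (L : List Fm),
    EFP F A E (A :: L) → ∃ L' : List Fm, Fr F (A :: L') ∧
      psize (A :: L') ≤ C * psize (A :: L) ^ 2 *
        2 ^ (C * (esize E + 1) / Nat.log 2 (esize E + 2)) := by
  obtain ⟨c, hc⟩ := solve hF
  obtain ⟨c', hc'⟩ := flatE_eq hF
  refine ⟨366 + (27 * c + c' + 1), fun A E L h => ?_⟩
  obtain ⟨s, hs⟩ : ∃ s, s = psize (A :: L) := ⟨_, rfl⟩
  have hs1 : 1 ≤ s := by
    rw [hs, psize_cons]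
    have := size_pos A
    omega
  obtain ⟨N, hN1, hN2⟩ := exists_bound A E
  have hw := h.wfe
  obtain ⟨w1, w2, w3⟩ := flatE_ok hN1 hw hN2
  obtain ⟨m, hm⟩ : ∃ m, m = esize E + 1 := ⟨_, rfl⟩
  have hE : esize E ≤ s := by rw [hs]; exact esize_le h
  obtain ⟨E', hE'⟩ : ∃ E', E' = flatE N E := ⟨_, rfl⟩
  rw [← hE'] at w1 w2 w3
  have hφ : ∀ u ∈ keys E', (dfn E' u).size ≤ 3 := dfn_size w1 fun p hp => (w3 p hp).1
  have hX' : (keys E').card ≤ esize E := by
    refine (List.toFinset_card_le _).trans ?_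
    rw [List.length_map]
    exact w2
  have hX : (keys E').card ≤ m := hX'.trans (by omega)
  obtain ⟨j, hj⟩ : ∃ j, j = Nat.log 2 (m + 1) / 2 := ⟨_, rfl⟩
  obtain ⟨d, hd⟩ : ∃ d, d = 9 * m / (j + 3) + 1 + gam j := ⟨_, rfl⟩
  have hdec : Dec (dfn E') (keys E') d := by
    refine pv hφ (rnk_lt w1) (rnk_inj E') j (keys E') (Finset.Subset.refl _) d ?_
    have h1 := dep_card hφ
    have h2 := Nat.lt_mul_div_succ (9 * m) (show 0 < j + 3 by omega)
    rw [hd, mul_add (j + 3) (9 * m / (j + 3) + 1) (gam j)]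
    omega
  obtain ⟨G, g1, g2, g3⟩ := hc (dfn E') (rnk E') (keys E') 3 (by norm_num) hφ (rnk_lt w1)
    (keys E') d hdec (Finset.Subset.refl _)
  have hM : 1 ≤ (20 * 3) ^ d := Nat.one_le_pow _ _ (by norm_num)
  have g3' := g3.sub (G' := E'.map fun p => iff (G p.1) (p.2.subst G)) (by
    intro B hB
    obtain ⟨p, hp, rfl⟩ := List.mem_map.1 hB
    refine List.mem_map.2 ⟨p.1, Finset.mem_toList.2 (mem_keys.2 ⟨p.2, hp⟩), ?_⟩
    rw [eqn, dfn_mem w1 p hp])
  have g4 := hc' G (s * (20 * 3) ^ d)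
    (∅ ∪ {B | B ∈ E'.map fun p => iff (G p.1) (p.2.subst G)})
    (fun n => (g2 n).trans (Nat.le_mul_of_pos_left _ hs1)) E N (fun p hp =>
      subst_size hM ((le_esize p hp).trans hE) g2) (fun p hp => Or.inr (by
        rw [← hE'] at hp
        exact List.mem_map.2 ⟨p, hp, rfl⟩))
  have hout : ∀ n ∈ A.vars, G n = var n := by
    intro n hn
    apply g1
    intro hk
    exact key_notMem w1 hk hn
  obtain ⟨L', h1, h2⟩ := h.main hM g2 hout (g3'.cut g4)
  refine ⟨L', h1, h2.trans ?_⟩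
  rw [← hs, ← hm, show esize E + 2 = m + 1 by omega]
  have har := arith_all m 0 (by omega)
  rw [← hj, ← hd, mul_zero, add_zero, add_zero] at har
  have har2 : 9 * d ≤ (366 + (27 * c + c' + 1)) * m / Nat.log 2 (m + 1) :=
    le_trans (le_trans (by omega) har) (Nat.div_le_div_right (Nat.mul_le_mul_right _ (by omega)))
  have k1 : (20 * 3) ^ d ≤ (160 * 3) ^ d := Nat.pow_le_pow_left (by norm_num) _
  have k2 : (160 * 3) ^ d ≤ 2 ^ (9 * d) := by
    rw [pow_mul]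
    exact Nat.pow_le_pow_left (by norm_num) _
  have k4 : s ≤ s * s := Nat.le_mul_of_pos_left _ hs1
  calc (keys E').card * (c * 3 ^ 3 * (160 * 3) ^ d) + esize E * (c' * (s * (20 * 3) ^ d)) +
        s * (20 * 3) ^ d
      ≤ (s * s) * (c * 3 ^ 3 * (160 * 3) ^ d) + s * (c' * (s * (160 * 3) ^ d)) +
        (s * s) * (160 * 3) ^ d := by
        refine Nat.add_le_add (Nat.add_le_add (Nat.mul_le_mul_right _
          ((hX'.trans hE).trans k4)) ?_) (Nat.mul_le_mul k4 k1)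
        exact Nat.mul_le_mul hE (Nat.mul_le_mul_left _ (Nat.mul_le_mul_left _ k1))
    _ = (27 * c + c' + 1) * s ^ 2 * (160 * 3) ^ d := by ring
    _ ≤ (366 + (27 * c + c' + 1)) * s ^ 2 *
        2 ^ ((366 + (27 * c + c' + 1)) * m / Nat.log 2 (m + 1)) :=
        Nat.mul_le_mul (Nat.mul_le_mul_right _ (by omega))
          (k2.trans (Nat.pow_le_pow_right (by norm_num) har2))

theorem sim_all (hF : IsFrege F) : ∃ C : ℕ, ∀ (A : Fm) (E : List (ℕ × Fm)) (L : List Fm),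
    EFP F A E (A :: L) → ∃ L' : List Fm, Fr F (A :: L') ∧
      psize (A :: L') ≤ 2 ^ (C * psize (A :: L) / Nat.log 2 (psize (A :: L) + 1)) := by
  obtain ⟨c, hc⟩ := solve hF
  obtain ⟨c', hc'⟩ := flatE_eq hF
  refine ⟨366 + 4 * (27 * c + c' + 1), fun A E L h => ?_⟩
  obtain ⟨s, hs⟩ : ∃ s, s = psize (A :: L) := ⟨_, rfl⟩
  have hs1 : 1 ≤ s := by
    rw [hs, psize_cons]
    have := size_pos A
    omega
  obtain ⟨N, hN1, hN2⟩ := exists_bound A E
  have hw := h.wfe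
  obtain ⟨w1, w2, w3⟩ := flatE_ok hN1 hw hN2
  have hE : esize E ≤ s := by rw [hs]; exact esize_le h
  obtain ⟨E', hE'⟩ : ∃ E', E' = flatE N E := ⟨_, rfl⟩
  rw [← hE'] at w1 w2 w3
  have hφ : ∀ u ∈ keys E', (dfn E' u).size ≤ 3 := dfn_size w1 fun p hp => (w3 p hp).1
  have hX : (keys E').card ≤ s := by
    refine (List.toFinset_card_le _).trans ?_
    rw [List.length_map]
    exact w2.trans hE
  obtain ⟨j, hj⟩ : ∃ j, j = Nat.log 2 (s + 1) / 2 := ⟨_, rfl⟩
  obtain ⟨d, hd⟩ : ∃ d, d = 9 * s / (j + 3) + 1 + gam j := ⟨_, rfl⟩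
  have hdec : Dec (dfn E') (keys E') d := by
    refine pv hφ (rnk_lt w1) (rnk_inj E') j (keys E') (Finset.Subset.refl _) d ?_
    have h1 := dep_card hφ
    have h2 := Nat.lt_mul_div_succ (9 * s) (show 0 < j + 3 by omega)
    rw [hd, mul_add (j + 3) (9 * s / (j + 3) + 1) (gam j)]
    omega
  obtain ⟨G, g1, g2, g3⟩ := hc (dfn E') (rnk E') (keys E') 3 (by norm_num) hφ (rnk_lt w1)
    (keys E') d hdec (Finset.Subset.refl _)
  have hM : 1 ≤ (20 * 3) ^ d := Nat.one_le_pow _ _ (by norm_num)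
  have g3' := g3.sub (G' := E'.map fun p => iff (G p.1) (p.2.subst G)) (by
    intro B hB
    obtain ⟨p, hp, rfl⟩ := List.mem_map.1 hB
    refine List.mem_map.2 ⟨p.1, Finset.mem_toList.2 (mem_keys.2 ⟨p.2, hp⟩), ?_⟩
    rw [eqn, dfn_mem w1 p hp])
  have g4 := hc' G (s * (20 * 3) ^ d)
    (∅ ∪ {B | B ∈ E'.map fun p => iff (G p.1) (p.2.subst G)})
    (fun n => (g2 n).trans (Nat.le_mul_of_pos_left _ hs1)) E N (fun p hp =>
      subst_size hM ((le_esize p hp).trans hE) g2) (fun p hp => Or.inr (by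
        rw [← hE'] at hp
        exact List.mem_map.2 ⟨p, hp, rfl⟩))
  have hout : ∀ n ∈ A.vars, G n = var n := by
    intro n hn
    apply g1
    intro hk
    exact key_notMem w1 hk hn
  obtain ⟨L', h1, h2⟩ := h.main hM g2 hout (g3'.cut g4)
  refine ⟨L', h1, h2.trans ?_⟩
  rw [← hs]
  refine le_trans ?_ (Nat.pow_le_pow_right (by norm_num) (arith_all s (27 * c + c' + 1) hs1))
  rw [← hj, ← hd]
  obtain ⟨l, hl⟩ : ∃ l, l = Nat.log 2 (s + 1) := ⟨_, rfl⟩
  rw [← hl]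
  have hsl : s ≤ 2 ^ (l + 1) := by
    have := Nat.lt_pow_succ_log_self (b := 2) (by norm_num) (s + 1)
    rw [← hl] at this
    omega
  have k1 : (20 * 3) ^ d ≤ (160 * 3) ^ d := Nat.pow_le_pow_left (by norm_num) _
  have k2 : (160 * 3) ^ d ≤ 2 ^ (9 * d) := by
    rw [pow_mul]
    exact Nat.pow_le_pow_left (by norm_num) _
  have k3 : 27 * c + c' + 1 ≤ 2 ^ (27 * c + c' + 1) := Nat.lt_two_pow_self.le
  have k4 : s ≤ s * s := Nat.le_mul_of_pos_left _ hs1
  calc (keys E').card * (c * 3 ^ 3 * (160 * 3) ^ d) + esize E * (c' * (s * (20 * 3) ^ d)) +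
        s * (20 * 3) ^ d
      ≤ (s * s) * (c * 3 ^ 3 * (160 * 3) ^ d) + s * (c' * (s * (160 * 3) ^ d)) +
        (s * s) * (160 * 3) ^ d := by
        refine Nat.add_le_add (Nat.add_le_add (Nat.mul_le_mul_right _ (hX.trans k4)) ?_)
          (Nat.mul_le_mul k4 k1)
        exact Nat.mul_le_mul hE (Nat.mul_le_mul_left _ (Nat.mul_le_mul_left _ k1))
    _ = (s * s) * (27 * c + c' + 1) * (160 * 3) ^ d := by ring
    _ ≤ (2 ^ (l + 1) * 2 ^ (l + 1)) * 2 ^ (27 * c + c' + 1) * 2 ^ (9 * d) :=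
        Nat.mul_le_mul (Nat.mul_le_mul (Nat.mul_le_mul hsl hsl) k3) k2
    _ = 2 ^ (2 * (l + 1) + (27 * c + c' + 1) + 9 * d) := by
        rw [← pow_add, ← pow_add, ← pow_add]
        congr 1
        ring

end Pool.Agent.TH677.EF
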