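import Pool.Agent.TH677.EF.All

/-! # No exponential separation with small decomposition depth or small treewidth -/

set_option autoImplicit false

namespace Pool.Agent.TH677.EF

open Pool.Agent.H555R2.PF Pool.Agent.H555R2.PF.Fm Filter

variable {F : List Rule}

theorem sim_tree (hF : IsFrege F) : ∃ C : ℕ, ∀ (A : Fm) (E : List (ℕ × Fm)) (L : List Fm),
    EFP F A E (A :: L) → ∀ b w : ℕ, (∀ p ∈ E, p.2.size ≤ b) →
    Nonempty (TreeDec (dfn E) (keys E) w) →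
    ∃ L' : List Fm, Fr F (A :: L') ∧ psize (A :: L') ≤
      psize (A :: L) * (C * (b + 1)) ^ ((w + 1) * (Nat.log 2 E.length + 1) + 3) := by
  obtain ⟨C, hC⟩ := sim_dec hF
  refine ⟨C, fun A E L h b w hb hT => ?_⟩
  obtain ⟨T⟩ := hT
  refine hC A E L h b _ hb (T.depth.mono (Nat.mul_le_mul_left _ (Nat.succ_le_succ ?_)))
  refine Nat.log_mono_right ((List.toFinset_card_le _).trans ?_)
  rw [List.length_map]

theorem ev_bound (K ε : ℝ) (hε : 0 < ε) : ∀ᶠ n : ℕ in atTop,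
    K * (Real.logb 2 n) ^ 2 < (n : ℝ) ^ (ε / 2) := by
  have h1 := isLittleO_log_rpow_rpow_atTop 2 (show 0 < ε / 2 by positivity)
  have h2 := h1.def (show (0 : ℝ) < (Real.log 2) ^ 2 / (2 * (|K| + 1)) by positivity)
  have h3 := tendsto_natCast_atTop_atTop.eventually h2
  filter_upwards [h3, eventually_ge_atTop 1] with n hn hn1
  have hx : (1 : ℝ) ≤ n := by exact_mod_cast hn1
  have hlog : 0 ≤ Real.log n := Real.log_nonneg hx
  have hpos : (0 : ℝ) < (n : ℝ) ^ (ε / 2) := by positivity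
  rw [Real.norm_of_nonneg (by positivity), Real.norm_of_nonneg hpos.le] at hn
  have e2 : (Real.log n) ^ (2 : ℝ) = (Real.log n) ^ 2 := by
    rw [← Real.rpow_natCast]; norm_num
  rw [e2] at hn
  have hl2 : 0 < Real.log 2 := Real.log_pos (by norm_num)
  have h4 : (Real.logb 2 n) ^ 2 ≤ (n : ℝ) ^ (ε / 2) / (2 * (|K| + 1)) := by
    rw [Real.logb, div_pow, div_le_iff₀ (by positivity)]
    calc (Real.log n) ^ 2 ≤ (Real.log 2) ^ 2 / (2 * (|K| + 1)) * (n : ℝ) ^ (ε / 2) := hn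
      _ = _ := by ring
  have h5 : K * (Real.logb 2 n) ^ 2 ≤ (|K| + 1) * (Real.logb 2 n) ^ 2 := by
    have := le_abs_self K
    nlinarith [sq_nonneg (Real.logb 2 n)]
  have h6 : (|K| + 1) * (Real.logb 2 n) ^ 2 ≤ (n : ℝ) ^ (ε / 2) / 2 := by
    have hK : 0 < |K| + 1 := by positivity
    calc (|K| + 1) * (Real.logb 2 n) ^ 2
        ≤ (|K| + 1) * ((n : ℝ) ^ (ε / 2) / (2 * (|K| + 1))) :=
          mul_le_mul_of_nonneg_left h4 hK.le
      _ = (n : ℝ) ^ (ε / 2) / 2 := by field_simp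
  linarith

theorem no_separation (hF : IsFrege F) (c : ℕ) (ε : ℝ) (hε : 0 < ε) : ∃ n₀ : ℕ,
    ∀ (A : Fm) (E : List (ℕ × Fm)) (L : List Fm), EFP F A E (A :: L) → n₀ ≤ A.size →
    psize (A :: L) ≤ A.size ^ c → ∀ m : ℕ, (m : ℝ) ≤ (A.size : ℝ) ^ (ε / 2) →
    (Dec (dfn E) (keys E) m ∨ Nonempty (TreeDec (dfn E) (keys E) m)) →
    ∃ L' : List Fm, Fr F (A :: L') ∧ (psize (A :: L') : ℝ) < 2 ^ ((A.size : ℝ) ^ ε) := by
  obtain ⟨C, hC⟩ := sim_dec hF
  obtain ⟨n₁, hn₁⟩ := eventually_atTop.1 (ev_bound ((c + 1) * (2 * c + 6)) ε hε)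
  refine ⟨max n₁ (2 * (C + 1)), fun A E L h hA hs m hm hor => ?_⟩
  obtain ⟨n, hn⟩ : ∃ n, n = A.size := ⟨_, rfl⟩
  obtain ⟨s, hs'⟩ : ∃ s, s = psize (A :: L) := ⟨_, rfl⟩
  rw [← hn] at hA hs hm ⊢
  rw [← hs'] at hs
  have hn1 : n₁ ≤ n := (le_max_left _ _).trans hA
  have hn2 : 2 * (C + 1) ≤ n := (le_max_right _ _).trans hA
  have hs1 : 1 ≤ s := by
    rw [hs', psize_cons]
    have := size_pos A
    omega
  have hkeys : (keys E).card ≤ s := by
    refine (List.toFinset_card_le _).trans ?_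
    rw [List.length_map, hs']
    exact h.length_le.trans (length_le_psize _)
  obtain ⟨D, hD⟩ : ∃ D, D = (m + 1) * (Nat.log 2 s + 1) := ⟨_, rfl⟩
  have hdec : Dec (dfn E) (keys E) D := by
    rcases hor with h1 | ⟨⟨T⟩⟩
    · refine h1.mono ?_
      rw [hD]
      calc m ≤ (m + 1) * 1 := by omega
        _ ≤ _ := Nat.mul_le_mul_left _ (by omega)
    · refine T.depth.mono ?_
      rw [hD]
      exact Nat.mul_le_mul_left _ (Nat.succ_le_succ (Nat.log_mono_right hkeys))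
  obtain ⟨L', h1, h2⟩ := hC A E L h s D (fun p hp => by
    rw [hs']; exact (le_esize p hp).trans (esize_le h)) hdec
  refine ⟨L', h1, ?_⟩
  rw [← hs'] at h2
  -- a bound by a power of `n`
  have h3 : C * (s + 1) ≤ n ^ (c + 1) := by
    calc C * (s + 1) ≤ (C + 1) * (2 * s) := Nat.mul_le_mul (by omega) (by omega)
      _ = 2 * (C + 1) * s := by ring
      _ ≤ n * n ^ c := Nat.mul_le_mul hn2 hs
      _ = n ^ (c + 1) := by ring
  have hn0 : 2 ≤ n := by omega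
  have h4 : s ≤ n ^ (c + 1) := hs.trans (Nat.pow_le_pow_right (by omega) (Nat.le_succ _))
  have h5 : psize (A :: L') ≤ n ^ ((c + 1) * (D + 4)) := by
    calc psize (A :: L') ≤ s * (C * (s + 1)) ^ (D + 3) := h2
      _ ≤ n ^ (c + 1) * (n ^ (c + 1)) ^ (D + 3) := Nat.mul_le_mul h4 (Nat.pow_le_pow_left h3 _)
      _ = n ^ ((c + 1) * (D + 4)) := by rw [← pow_mul, ← pow_add]; congr 1; ring
  obtain ⟨x, hx⟩ : ∃ x : ℝ, x = n := ⟨_, rfl⟩
  have hx2 : (2 : ℝ) ≤ x := by rw [hx]; exact_mod_cast hn0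
  obtain ⟨l, hl⟩ : ∃ l, l = Real.logb 2 x := ⟨_, rfl⟩
  have hl1 : 1 ≤ l := by
    rw [hl, Real.le_logb_iff_rpow_le (by norm_num) (by linarith)]
    simpa using hx2
  have hev := hn₁ n hn1
  rw [← hx, ← hl] at hev
  rw [← hx] at hm ⊢
  obtain ⟨y, hy⟩ : ∃ y, y = x ^ (ε / 2) := ⟨_, rfl⟩
  rw [← hy] at hev hm
  have hy1 : 1 ≤ y := by
    rw [hy]
    exact Real.one_le_rpow (by linarith) (by positivity)
  have hyy : y * y = x ^ ε := by
    rw [hy, ← Real.rpow_add (by linarith)]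
    congr 1
    ring
  have hlog : (Nat.log 2 s : ℝ) ≤ c * l := by
    calc (Nat.log 2 s : ℝ) ≤ Real.logb (2 : ℕ) s := Real.natLog_le_logb _ _
      _ = Real.logb 2 s := by norm_num
      _ ≤ Real.logb 2 (x ^ c) := by
        apply Real.logb_le_logb_of_le (by norm_num) (by exact_mod_cast hs1)
        rw [hx]
        exact_mod_cast hs
      _ = c * l := by rw [Real.logb_pow, hl]
  have hDr : ((D : ℝ) + 4) ≤ (2 * c + 6) * y * l := by
    rw [hD]
    push_cast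
    have g1 : (m : ℝ) + 1 ≤ 2 * y := by linarith
    have g2 : (Nat.log 2 s : ℝ) + 1 ≤ (c + 1) * l := by nlinarith
    have g3 : ((m : ℝ) + 1) * ((Nat.log 2 s : ℝ) + 1) ≤ 2 * y * ((c + 1) * l) :=
      mul_le_mul g1 g2 (by positivity) (by positivity)
    have g4 : 1 ≤ y * l := by nlinarith
    nlinarith
  have hexp : l * ((c + 1) * (D + 4)) < x ^ ε := by
    have hc0 : (0 : ℝ) ≤ c := Nat.cast_nonneg c
    calc l * ((c + 1) * (D + 4)) ≤ l * ((c + 1) * ((2 * c + 6) * y * l)) := by gcongr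
      _ = y * ((c + 1) * (2 * c + 6) * l ^ 2) := by ring
      _ < y * y := mul_lt_mul_of_pos_left hev (by linarith)
      _ = x ^ ε := hyy
  calc (psize (A :: L') : ℝ) ≤ (n : ℝ) ^ ((c + 1) * (D + 4)) := by exact_mod_cast h5
    _ = (2 : ℝ) ^ (l * ((c + 1) * (D + 4))) := by
      rw [Real.rpow_mul (by norm_num), hl, Real.rpow_logb (by norm_num) (by norm_num)
        (by linarith), ← hx, ← Real.rpow_natCast]
      push_cast
      rfl
    _ < 2 ^ (x ^ ε) := Real.rpow_lt_rpow_of_exponent_lt (by norm_num) hexp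

end Pool.Agent.TH677.EF
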