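import Pool.Agent.H555R2.PF.Base

/-!
# Extending Frege proofs

`Fr F L`: the list `L` (last line first) is a proof of the Frege system `F`. `Ca F Γ G m`: every
proof containing the formulas of `Γ` can be extended to a proof containing the formulas of `G`
by adding at most `m` symbols.
-/

set_option autoImplicit false

namespace Pool.Agent.TH677.EF

open Pool.Agent.H555R2.PF Pool.Agent.H555R2.PF.Fm

/-- Proofs of the Frege system `F`; the head of the list is the last line. -/
inductive Fr (F : List Rule) : List Fm → Prop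
  | nil : Fr F []
  | rule {L : List Fm} {B : Fm} : Fr F L → FregeStep F L B → Fr F (B :: L)

theorem Fr.append {F : List Rule} {L : List Fm} (hL : Fr F L) : ∀ {D : List Fm}, Fr F D →
    Fr F (D ++ L) := by
  intro D hD
  induction hD with
  | nil => exact hL
  | @rule D B hD hB ih =>
    exact Fr.rule ih (hB.mono fun A hA => List.mem_append_left _ hA)

theorem Fr.map {F : List Rule} {L : List Fm} (hL : Fr F L) (σ : ℕ → Fm) :
    Fr F (L.map (Fm.subst σ)) := by
  induction hL with
  | nil => exact Fr.nil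
  | @rule L B hL hB ih =>
    obtain ⟨r, hr, τ, h1, h2⟩ := hB
    refine Fr.rule ih ⟨r, hr, fun n => (τ n).subst σ, by rw [h1, Fm.subst_subst], ?_⟩
    intro p hp
    rw [← Fm.subst_subst]
    exact List.mem_map.2 ⟨_, h2 p hp, rfl⟩

theorem psize_map_le {σ : ℕ → Fm} {M : ℕ} (hM : 1 ≤ M) (hσ : ∀ n, (σ n).size ≤ M) (L : List Fm) :
    psize (L.map (Fm.subst σ)) ≤ psize L * M := by
  induction L with
  | nil => simp [psize]
  | cons B L ih =>
    rw [List.map_cons, psize_cons, psize_cons]
    have := Fm.size_subst_le (σ := σ) hM (A := B) (fun n _ => hσ n)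
    nlinarith

/-- From every proof containing the formulas of `Γ` one can go on to a proof containing the
formulas of `G`, adding at most `m` symbols. -/
def Ca (F : List Rule) (Γ : Set Fm) (G : List Fm) (m : ℕ) : Prop :=
  ∀ L, Fr F L → (∀ A ∈ Γ, A ∈ L) →
    ∃ D, Fr F (D ++ L) ∧ (∀ B ∈ G, B ∈ D ++ L) ∧ psize D ≤ m

namespace Ca

variable {F : List Rule} {Γ Γ' : Set Fm} {G G' : List Fm} {m m' : ℕ}

theorem mono (h : Ca F Γ G m) (hΓ : Γ ⊆ Γ') (hm : m ≤ m') : Ca F Γ' G m' := by
  intro L hL hΓL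
  obtain ⟨D, h1, h2, h3⟩ := h L hL fun A hA => hΓL A (hΓ hA)
  exact ⟨D, h1, h2, h3.trans hm⟩

theorem le (h : Ca F Γ G m) (hm : m ≤ m') : Ca F Γ G m' := h.mono subset_rfl hm

theorem sub (h : Ca F Γ G m) (hG : ∀ B ∈ G', B ∈ G) : Ca F Γ G' m := by
  intro L hL hΓL
  obtain ⟨D, h1, h2, h3⟩ := h L hL hΓL
  exact ⟨D, h1, fun B hB => h2 B (hG B hB), h3⟩

theorem nil : Ca F Γ [] 0 := fun L hL _ => ⟨[], hL, by simp, by simp [psize]⟩

theorem hyp {B : Fm} (h : B ∈ Γ) : Ca F Γ [B] 0 := fun L hL hΓ =>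
  ⟨[], hL, by simpa using hΓ B h, by simp [psize]⟩

/-- cut -/
theorem cut (h : Ca F Γ G m) (h' : Ca F (Γ ∪ {B | B ∈ G}) G' m') : Ca F Γ G' (m + m') := by
  intro L hL hΓL
  obtain ⟨D, h1, h2, h3⟩ := h L hL hΓL
  obtain ⟨D', h1', h2', h3'⟩ := h' (D ++ L) h1 (by
    rintro A (hA | hA)
    · exact List.mem_append_right _ (hΓL A hA)
    · exact h2 A hA)
  refine ⟨D' ++ D, by rwa [List.append_assoc], ?_, ?_⟩
  · intro B hB
    rw [List.append_assoc]
    exact h2' B hB
  · rw [psize_append]; omega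

theorem append (h : Ca F Γ G m) (h' : Ca F Γ G' m') : Ca F Γ (G ++ G') (m + m') := by
  intro L hL hΓL
  obtain ⟨D, h1, h2, h3⟩ := h L hL hΓL
  obtain ⟨D', h1', h2', h3'⟩ := h' (D ++ L) h1 fun A hA => List.mem_append_right _ (hΓL A hA)
  refine ⟨D' ++ D, by rwa [List.append_assoc], ?_, ?_⟩
  · intro B hB
    rw [List.append_assoc]
    rcases List.mem_append.1 hB with hB | hB
    · exact List.mem_append_right _ (h2 B hB)
    · exact h2' B hB
  · rw [psize_append]; omega

/-- cut, keeping the goals of the first part -/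
theorem cut' (h : Ca F Γ G m) (h' : Ca F (Γ ∪ {B | B ∈ G}) G' m') :
    Ca F Γ (G ++ G') (m + m') := by
  intro L hL hΓL
  obtain ⟨D, h1, h2, h3⟩ := h L hL hΓL
  obtain ⟨D', h1', h2', h3'⟩ := h' (D ++ L) h1 (by
    rintro A (hA | hA)
    · exact List.mem_append_right _ (hΓL A hA)
    · exact h2 A hA)
  refine ⟨D' ++ D, by rwa [List.append_assoc], ?_, ?_⟩
  · intro B hB
    rw [List.append_assoc]
    rcases List.mem_append.1 hB with hB | hB
    · exact List.mem_append_right _ (h2 B hB)
    · exact h2' B hB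
  · rw [psize_append]; omega

/-- a family of goals -/
theorem many {ι : Type} (f : ι → Fm) (k : ℕ) : ∀ (l : List ι), (∀ i ∈ l, Ca F Γ [f i] k) →
    Ca F Γ (l.map f) (l.length * k) := by
  intro l
  induction l with
  | nil => intro _; simpa using (nil : Ca F Γ [] 0)
  | cons i l ih =>
    intro h
    have h1 := h i (by simp)
    have h2 := ih fun j hj => h j (by simp [hj])
    refine ((h1.append h2).sub (by simp)).mono subset_rfl ?_
    simp only [List.length_cons]
    nlinarith

/-- instances of a provable list -/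
theorem inst {σ : ℕ → Fm} {M : ℕ} (h : Ca F ∅ G m) (hM : 1 ≤ M) (hσ : ∀ n, (σ n).size ≤ M) :
    Ca F ∅ (G.map (Fm.subst σ)) (m * M) := by
  obtain ⟨D, h1, h2, h3⟩ := h [] Fr.nil (by simp)
  rw [List.append_nil] at h1 h2
  intro L hL _
  refine ⟨D.map (Fm.subst σ), hL.append (h1.map σ), ?_, ?_⟩
  · intro B hB
    obtain ⟨C, hC, rfl⟩ := List.mem_map.1 hB
    exact List.mem_append_left _ (List.mem_map.2 ⟨C, h2 C hC, rfl⟩)
  · exact (psize_map_le hM hσ D).trans (Nat.mul_le_mul_right _ h3)

end Ca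

/-- instances of a derivation -/
theorem deriv_inst {F : List Rule} {Γ₀ : List Fm} {Lf : List Fm}
    (hd : Derivation F Γ₀ Lf) {σ : ℕ → Fm} {M : ℕ} (hM : 1 ≤ M) (hσ : ∀ n, (σ n).size ≤ M)
    {Γ : Set Fm} (hΓ : ∀ A ∈ Γ₀, A.subst σ ∈ Γ) :
    Ca F Γ (Lf.map (Fm.subst σ)) (psize Lf * M) := by
  induction hd with
  | nil => simpa using (Ca.nil : Ca F Γ [] 0).mono subset_rfl (Nat.zero_le _)
  | @hyp L B hd hB ih =>
    have h1 : Ca F Γ [B.subst σ] 0 := Ca.hyp (hΓ B hB)
    refine ((h1.append ih).sub (by simp)).mono subset_rfl ?_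
    rw [psize_cons]
    nlinarith [Nat.zero_le (B.size * M)]
  | @rule L B hd hB ih =>
    obtain ⟨r, hr, τ, h1, h2⟩ := hB
    intro L' hL' hΓL'
    obtain ⟨D, h3, h4, h5⟩ := ih L' hL' hΓL'
    have h6 : FregeStep F (D ++ L') (B.subst σ) := by
      refine ⟨r, hr, fun n => (τ n).subst σ, by rw [h1, Fm.subst_subst], ?_⟩
      intro p hp
      rw [← Fm.subst_subst]
      exact h4 _ (List.mem_map.2 ⟨_, h2 p hp, rfl⟩)
    refine ⟨B.subst σ :: D, Fr.rule h3 h6, ?_, ?_⟩
    · intro C hC
      simp only [List.map_cons, List.mem_cons] at hC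
      rcases hC with rfl | hC
      · simp
      · exact List.mem_cons_of_mem _ (h4 C hC)
    · rw [psize_cons, psize_cons]
      have := Fm.size_subst_le (σ := σ) hM (A := B) (fun n _ => hσ n)
      nlinarith

/-- derived schematic rules -/
theorem schemaC {F : List Rule} (hF : IsFrege F) (Γ₀ : List Fm) (B₀ : Fm) (h : Entails Γ₀ B₀) :
    ∃ c : ℕ, ∀ (l : List Fm) (M : ℕ), 1 ≤ M → (∀ X ∈ l, X.size ≤ M) → ∀ Γ : Set Fm,
      (∀ A ∈ Γ₀, A.subst (asg l) ∈ Γ) → Ca F Γ [B₀.subst (asg l)] (c * M) := by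
  obtain ⟨L, hL⟩ := hF.2 Γ₀ B₀ h
  refine ⟨psize (B₀ :: L), fun l M hM hl Γ hΓ => ?_⟩
  exact (deriv_inst hL hM (asg_size hM hl) hΓ).sub (by simp)

/-- replacement of equivalents -/
theorem repl (F : List Rule) (hF : IsFrege F) : ∃ c : ℕ, ∀ (H B : Fm) (σ τ : ℕ → Fm) (M : ℕ),
    H.size ≤ M → (B.subst σ).size ≤ M → (B.subst τ).size ≤ M → ∀ Γ : Set Fm,
    (∀ n ∈ B.vars, imp H (iff (σ n) (τ n)) ∈ Γ) →
    Ca F Γ [imp H (iff (B.subst σ) (B.subst τ))] (c * M * B.size) := by
  obtain ⟨c₁, h₁⟩ := schemaC hF [imp (var 0) (iff (var 1) (var 2))]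
    (imp (var 0) (iff (neg (var 1)) (neg (var 2)))) (by
    intro v h; simp [eval, iff] at h ⊢; tauto)
  obtain ⟨c₂, h₂⟩ := schemaC hF [imp (var 0) (iff (var 1) (var 2)), imp (var 0) (iff (var 3) (var 4))]
    (imp (var 0) (iff (and (var 1) (var 3)) (and (var 2) (var 4)))) (by
    intro v h; simp [eval, iff] at h ⊢; tauto)
  obtain ⟨c₃, h₃⟩ := schemaC hF [imp (var 0) (iff (var 1) (var 2)), imp (var 0) (iff (var 3) (var 4))]
    (imp (var 0) (iff (or (var 1) (var 3)) (or (var 2) (var 4)))) (by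
    intro v h; simp [eval, iff] at h ⊢; tauto)
  obtain ⟨c₄, h₄⟩ := schemaC hF [imp (var 0) (iff (var 1) (var 2)), imp (var 0) (iff (var 3) (var 4))]
    (imp (var 0) (iff (imp (var 1) (var 3)) (imp (var 2) (var 4)))) (by
    intro v h; simp [eval, iff] at h ⊢; tauto)
  refine ⟨c₁ + c₂ + c₃ + c₄, fun H B σ τ M hH => ?_⟩
  have hM : 1 ≤ M := (size_pos H).trans hH
  induction B with
  | var n =>
    intro _ _ Γ hΓ
    exact (Ca.hyp (hΓ n (by simp [vars]))).mono subset_rfl (Nat.zero_le _)
  | neg A ih =>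
    intro hs ht Γ hΓ
    simp only [subst, size] at hs ht
    have r := ih (by omega) (by omega) Γ hΓ
    have s := h₁ [H, A.subst σ, A.subst τ] M hM (by
      intro X hX; simp at hX; rcases hX with rfl | rfl | rfl
      exacts [hH, by omega, by omega]) (Γ ∪ {Y | Y ∈ [imp H (iff (A.subst σ) (A.subst τ))]}) (by
      intro Y hY; simp only [List.mem_singleton] at hY; subst hY
      right; simp [subst, asg, iff])
    refine ((r.cut s).sub (by
      intro Y hY
      simpa [subst, asg, iff] using hY)).mono subset_rfl ?_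
    simp only [size]
    nlinarith [Nat.zero_le (c₂ * M), Nat.zero_le (c₃ * M), Nat.zero_le (c₄ * M)]
  | and A B iA iB =>
    intro hs ht Γ hΓ
    simp only [subst, size] at hs ht
    have rA := iA (by omega) (by omega) Γ (fun n hn => hΓ n (by simp [vars, hn]))
    have rB := iB (by omega) (by omega) Γ (fun n hn => hΓ n (by simp [vars, hn]))
    have s := h₂ [H, A.subst σ, A.subst τ, B.subst σ, B.subst τ] M hM (by
      intro X hX; simp at hX; rcases hX with rfl | rfl | rfl | rfl | rfl
      exacts [hH, by omega, by omega, by omega, by omega])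
      (Γ ∪ {Y | Y ∈ [imp H (iff (A.subst σ) (A.subst τ))] ++
        [imp H (iff (B.subst σ) (B.subst τ))]}) (by
      intro Y hY; simp only [List.mem_cons, List.not_mem_nil, or_false] at hY
      rcases hY with rfl | rfl <;> right <;> simp [subst, asg, iff])
    refine (((rA.append rB).cut s).sub (by
      intro Y hY
      simpa [subst, asg, iff] using hY)).mono subset_rfl ?_
    simp only [size]
    nlinarith [Nat.zero_le (c₁ * M), Nat.zero_le (c₃ * M), Nat.zero_le (c₄ * M)]
  | or A B iA iB =>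
    intro hs ht Γ hΓ
    simp only [subst, size] at hs ht
    have rA := iA (by omega) (by omega) Γ (fun n hn => hΓ n (by simp [vars, hn]))
    have rB := iB (by omega) (by omega) Γ (fun n hn => hΓ n (by simp [vars, hn]))
    have s := h₃ [H, A.subst σ, A.subst τ, B.subst σ, B.subst τ] M hM (by
      intro X hX; simp at hX; rcases hX with rfl | rfl | rfl | rfl | rfl
      exacts [hH, by omega, by omega, by omega, by omega])
      (Γ ∪ {Y | Y ∈ [imp H (iff (A.subst σ) (A.subst τ))] ++
        [imp H (iff (B.subst σ) (B.subst τ))]}) (by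
      intro Y hY; simp only [List.mem_cons, List.not_mem_nil, or_false] at hY
      rcases hY with rfl | rfl <;> right <;> simp [subst, asg, iff])
    refine (((rA.append rB).cut s).sub (by
      intro Y hY
      simpa [subst, asg, iff] using hY)).mono subset_rfl ?_
    simp only [size]
    nlinarith [Nat.zero_le (c₁ * M), Nat.zero_le (c₂ * M), Nat.zero_le (c₄ * M)]
  | imp A B iA iB =>
    intro hs ht Γ hΓ
    simp only [subst, size] at hs ht
    have rA := iA (by omega) (by omega) Γ (fun n hn => hΓ n (by simp [vars, hn]))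
    have rB := iB (by omega) (by omega) Γ (fun n hn => hΓ n (by simp [vars, hn]))
    have s := h₄ [H, A.subst σ, A.subst τ, B.subst σ, B.subst τ] M hM (by
      intro X hX; simp at hX; rcases hX with rfl | rfl | rfl | rfl | rfl
      exacts [hH, by omega, by omega, by omega, by omega])
      (Γ ∪ {Y | Y ∈ [imp H (iff (A.subst σ) (A.subst τ))] ++
        [imp H (iff (B.subst σ) (B.subst τ))]}) (by
      intro Y hY; simp only [List.mem_cons, List.not_mem_nil, or_false] at hY
      rcases hY with rfl | rfl <;> right <;> simp [subst, asg, iff])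
    refine (((rA.append rB).cut s).sub (by
      intro Y hY
      simpa [subst, asg, iff] using hY)).mono subset_rfl ?_
    simp only [size]
    nlinarith [Nat.zero_le (c₁ * M), Nat.zero_le (c₂ * M), Nat.zero_le (c₃ * M)]

end Pool.Agent.TH677.EF
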