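import Pool.Agent.TH677.EF.Sch

/-! # Decomposition depth and solutions of the extension axioms -/

set_option autoImplicit false

namespace Pool.Agent.TH677.EF

open Pool.Agent.H555R2.PF Pool.Agent.H555R2.PF.Fm

variable {F : List Rule}

/-- the extension axiom of `u`, under the substitution `G` -/
def eqn (φ G : ℕ → Fm) (u : ℕ) : Fm := iff (G u) ((φ u).subst G)

theorem eqn_subst (φ G τ : ℕ → Fm) (u : ℕ) :
    (eqn φ G u).subst τ = eqn φ (fun n => (G n).subst τ) u := by
  simp only [eqn, iff, subst, subst_subst]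

/-- the constants -/
def cs (s : ℕ) (a : Bool) : Fm := if a = true then imp (var s) (var s) else neg (imp (var s) (var s))

theorem cs_size (s : ℕ) (a : Bool) : (cs s a).size ≤ 4 := by
  cases a <;> simp [cs, size]

/-- replace `s` by a constant -/
def up (s : ℕ) (a : Bool) : ℕ → Fm := fun n => if n = s then cs s a else var n

theorem up_size (s : ℕ) (a : Bool) (n : ℕ) : (up s a n).size ≤ 4 := by
  unfold up
  split_ifs
  · exact cs_size s a
  · simp [size]

/-- the formulas after guessing the value of `s` -/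
def gs (φ : ℕ → Fm) (S : Finset ℕ) (s : ℕ) (G : ℕ → Fm) : ℕ → Fm := fun n =>
  if n = s then (φ s).subst (fun n => (G n).subst (up s false)) else
    if n ∈ S then or (and ((φ s).subst (fun n => (G n).subst (up s false)))
        ((G n).subst (up s true)))
      (and (neg ((φ s).subst (fun n => (G n).subst (up s false)))) ((G n).subst (up s false)))
    else var n

theorem subst_size {A : Fm} {σ : ℕ → Fm} {b M : ℕ} (hM : 1 ≤ M) (hA : A.size ≤ b)
    (hσ : ∀ n, (σ n).size ≤ M) : (A.subst σ).size ≤ b * M :=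
  (size_subst_le hM fun n _ => hσ n).trans (Nat.mul_le_mul_right _ hA)

/-- the children of `s` do not depend on the guess -/
theorem indep (hF : IsFrege F) : ∃ c : ℕ, ∀ (φ : ℕ → Fm) (rk : ℕ → ℕ) (S : Finset ℕ)
    (s b g M : ℕ) (G1 G0 : ℕ → Fm), 1 ≤ b → 1 ≤ g → b * g ≤ M → 3 ≤ M →
    (∀ u ∈ S, (φ u).size ≤ b) →
    (∀ u ∈ S, ∀ v ∈ S, v ∈ (φ u).vars → rk v < rk u) →
    (∀ u ∈ S, s ∈ (φ u).vars → rk s < rk u) →
    (∀ n, (G1 n).size ≤ g) → (∀ n, (G0 n).size ≤ g) →
    (∀ n, n ∉ S → n ≠ s → G1 n = var n ∧ G0 n = var n) →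
    ∀ Γ : Set Fm, (∀ u ∈ S, eqn φ G1 u ∈ Γ) → (∀ u ∈ S, eqn φ G0 u ∈ Γ) →
    ∀ U : Finset ℕ, U ⊆ S → (∀ u ∈ U, rk u < rk s) →
    (∀ u ∈ U, ∀ v ∈ (φ u).vars, v ∈ S → v ∈ U) →
    Ca F Γ (U.toList.map fun u => imp (imp (var s) (var s)) (iff (G1 u) (G0 u)))
      (U.card * (c * (b * M))) := by
  classical
  obtain ⟨c1, h1⟩ := s1 hF
  obtain ⟨c10, h10⟩ := s10 hF
  obtain ⟨cr, hr⟩ := repl' hF
  refine ⟨c1 + cr + c10, fun φ rk S s b g M G1 G0 hb hg hbM h3M hφ hrk hrs hG1 hG0 hout Γ hΓ1 hΓ0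
    U => ?_⟩
  have hgM : g ≤ M := le_trans (Nat.le_mul_of_pos_left _ hb) hbM
  have hT : (imp (var s) (var s)).size ≤ M := by simpa [size] using h3M
  induction U using Finset.induction_on_max_value rk with
  | empty =>
    intro _ _ _
    simpa using (Ca.nil : Ca F Γ [] 0)
  | insert u U hu hmax ih =>
    intro hUS hUs hcl
    have huS : u ∈ S := hUS (Finset.mem_insert_self _ _)
    have hus : rk u < rk s := hUs u (Finset.mem_insert_self _ _)
    have ih' := ih (fun x hx => hUS (Finset.mem_insert_of_mem hx))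
      (fun x hx => hUs x (Finset.mem_insert_of_mem hx)) (by
        intro w hw v hv hvS
        have h4 := hcl w (Finset.mem_insert_of_mem hw) v hv hvS
        rcases Finset.mem_insert.1 h4 with rfl | h4
        · exfalso
          have h5 := hrk w (hUS (Finset.mem_insert_of_mem hw)) v hvS hv
          have h6 := hmax w hw
          omega
        · exact h4)
    -- the new formula
    have hnew : Ca F (Γ ∪ {B | B ∈ U.toList.map fun u =>
        imp (imp (var s) (var s)) (iff (G1 u) (G0 u))})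
        [imp (imp (var s) (var s)) (iff (G1 u) (G0 u))]
        (b * (c1 * M + cr * M) + c10 * M) := by
      have h5 := hr (imp (var s) (var s)) (φ u) G1 G0 M (c1 * M) hT
        ((subst_size hg (hφ u huS) hG1).trans hbM) ((subst_size hg (hφ u huS) hG0).trans hbM)
        (Γ ∪ {B | B ∈ U.toList.map fun u => imp (imp (var s) (var s)) (iff (G1 u) (G0 u))}) (by
          intro n hn
          by_cases hnS : n ∈ S
          · have h6 := hcl u (Finset.mem_insert_self _ _) n hn hnS
            have h7 : n ≠ u := by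
              rintro rfl
              exact lt_irrefl _ (hrk n huS n huS hn)
            have h8 : n ∈ U := (Finset.mem_insert.1 h6).resolve_left h7
            refine (Ca.hyp (Or.inr ?_)).le (Nat.zero_le _)
            exact List.mem_map.2 ⟨n, Finset.mem_toList.2 h8, rfl⟩
          · have h7 : n ≠ s := by
              rintro rfl
              have := hrs u huS hn
              omega
            obtain ⟨e1, e0⟩ := hout n hnS h7
            rw [e1, e0]
            exact h1 _ _ M hT (by simp [size]; omega) _)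
      have h6 := h10 (imp (var s) (var s)) (G1 u) ((φ u).subst G1) (G0 u) ((φ u).subst G0) M hT
        ((hG1 u).trans hgM) ((subst_size hg (hφ u huS) hG1).trans hbM) ((hG0 u).trans hgM)
        ((subst_size hg (hφ u huS) hG0).trans hbM)
        ((Γ ∪ {B | B ∈ U.toList.map fun u => imp (imp (var s) (var s)) (iff (G1 u) (G0 u))}) ∪
          {B | B ∈ [imp (imp (var s) (var s)) (iff ((φ u).subst G1) ((φ u).subst G0))]})
        (Or.inl (Or.inl (hΓ1 u huS))) (Or.inl (Or.inl (hΓ0 u huS))) (Or.inr (by simp))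
      refine (h5.cut h6).le ?_
      have h7 := Nat.mul_le_mul_right (c1 * M + cr * M) (hφ u huS)
      omega
    refine ((ih'.cut' hnew).sub ?_).le ?_
    · intro B hB
      obtain ⟨v, hv, rfl⟩ := List.mem_map.1 hB
      rcases Finset.mem_insert.1 (Finset.mem_toList.1 hv) with rfl | hv
      · simp
      · exact List.mem_append_left _ (List.mem_map.2 ⟨v, Finset.mem_toList.2 hv, rfl⟩)
    · rw [Finset.card_insert_of_notMem hu]
      have h7 : c10 * M ≤ c10 * (b * M) := Nat.mul_le_mul_left _ (Nat.le_mul_of_pos_left _ hb)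
      have h8 : b * (c1 * M + cr * M) + c10 * M ≤ (c1 + cr + c10) * (b * M) := by
        calc _ ≤ b * (c1 * M + cr * M) + c10 * (b * M) := Nat.add_le_add_left h7 _
          _ = _ := by ring
      calc _ ≤ U.card * ((c1 + cr + c10) * (b * M)) + (c1 + cr + c10) * (b * M) :=
            Nat.add_le_add_left h8 _
        _ = _ := by ring

/-- guessing one variable -/
theorem guess_step (hF : IsFrege F) : ∃ c : ℕ, ∀ (φ : ℕ → Fm) (rk : ℕ → ℕ) (S : Finset ℕ)
    (s b g K : ℕ) (G : ℕ → Fm), 1 ≤ b → 1 ≤ g → s ∉ S → (∀ u ∈ insert s S, (φ u).size ≤ b) →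
    (∀ u ∈ insert s S, ∀ v ∈ insert s S, v ∈ (φ u).vars → rk v < rk u) →
    (∀ n, n ∉ S → G n = var n) → (∀ n, (G n).size ≤ g) →
    Ca F ∅ (S.toList.map (eqn φ G)) K →
    (∀ n, n ∉ insert s S → gs φ S s G n = var n) ∧ (∀ n, (gs φ S s G n).size ≤ 20 * b * g) ∧
      Ca F ∅ ((insert s S).toList.map (eqn φ (gs φ S s G)))
        (8 * K + (S.card + 1) * (c * (b * (b * (b * g))))) := by
  classical
  obtain ⟨c1, h1⟩ := s1 hF
  obtain ⟨c2, h2⟩ := s2 hF
  obtain ⟨c3, h3⟩ := s3 hF
  obtain ⟨c4, h4⟩ := s4 hF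
  obtain ⟨c5, h5⟩ := s5 hF
  obtain ⟨c6, h6⟩ := s6 hF
  obtain ⟨c7, h7⟩ := s7 hF
  obtain ⟨c8, h8⟩ := s8 hF
  obtain ⟨c9, h9⟩ := s9 hF
  obtain ⟨cr, hr⟩ := repl' hF
  obtain ⟨ci, hi⟩ := indep hF
  obtain ⟨c, hc⟩ : ∃ c, c = c1 + c2 + c3 + c4 + c5 + c6 + c7 + c8 + c9 + cr + ci := ⟨_, rfl⟩
  have k1 : ∀ M, c1 * M ≤ c * M := fun M => Nat.mul_le_mul_right M (by omega)
  have k2 : ∀ M, c2 * M ≤ c * M := fun M => Nat.mul_le_mul_right M (by omega)
  have k3 : ∀ M, c3 * M ≤ c * M := fun M => Nat.mul_le_mul_right M (by omega)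
  have k4 : ∀ M, c4 * M ≤ c * M := fun M => Nat.mul_le_mul_right M (by omega)
  have k5 : ∀ M, c5 * M ≤ c * M := fun M => Nat.mul_le_mul_right M (by omega)
  have k6 : ∀ M, c6 * M ≤ c * M := fun M => Nat.mul_le_mul_right M (by omega)
  have k7 : ∀ M, c7 * M ≤ c * M := fun M => Nat.mul_le_mul_right M (by omega)
  have k8 : ∀ M, c8 * M ≤ c * M := fun M => Nat.mul_le_mul_right M (by omega)
  have k9 : ∀ M, c9 * M ≤ c * M := fun M => Nat.mul_le_mul_right M (by omega)
  have kr : ∀ M, cr * M ≤ c * M := fun M => Nat.mul_le_mul_right M (by omega)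
  have ki : ∀ M, ci * M ≤ c * M := fun M => Nat.mul_le_mul_right M (by omega)
  refine ⟨400 * c, fun φ rk S s b g K G hb hg hsS hφ hrk hout hG hK => ?_⟩
  -- the two worlds
  obtain ⟨G1, hG1d⟩ : ∃ G1 : ℕ → Fm, G1 = fun n => (G n).subst (up s true) := ⟨_, rfl⟩
  obtain ⟨G0, hG0d⟩ : ∃ G0 : ℕ → Fm, G0 = fun n => (G n).subst (up s false) := ⟨_, rfl⟩
  obtain ⟨V, hVd⟩ : ∃ V : Fm, V = (φ s).subst G0 := ⟨_, rfl⟩
  obtain ⟨G', hG'd⟩ : ∃ G' : ℕ → Fm, G' = gs φ S s G := ⟨_, rfl⟩
  have eG's : G' s = V := by rw [hG'd, hVd, hG0d]; simp [gs]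
  have eG'S : ∀ n ∈ S, G' n = or (and V (G1 n)) (and (neg V) (G0 n)) := by
    intro n hn
    have : n ≠ s := fun h => hsS (h ▸ hn)
    rw [hG'd, hVd, hG0d, hG1d]; simp [gs, this, hn]
  have eG'o : ∀ n, n ∉ S → n ≠ s → G' n = var n := by
    intro n hn hns
    rw [hG'd]; simp [gs, hns, hn]
  have e1s : G1 s = imp (var s) (var s) := by
    rw [hG1d]; simp only; rw [hout s hsS]; simp [subst, up, cs]
  have e0s : G0 s = neg (imp (var s) (var s)) := by
    rw [hG0d]; simp only; rw [hout s hsS]; simp [subst, up, cs]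
  have e1o : ∀ n, n ∉ S → n ≠ s → G1 n = var n := by
    intro n hn hns
    rw [hG1d]; simp only; rw [hout n hn]; simp [subst, up, hns]
  have e0o : ∀ n, n ∉ S → n ≠ s → G0 n = var n := by
    intro n hn hns
    rw [hG0d]; simp only; rw [hout n hn]; simp [subst, up, hns]
  -- sizes
  have z1 : ∀ n, (G1 n).size ≤ 4 * g := by
    intro n
    rw [hG1d, mul_comm]
    exact subst_size (by norm_num) (hG n) (up_size s true)
  have z0 : ∀ n, (G0 n).size ≤ 4 * g := by
    intro n
    rw [hG0d, mul_comm]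
    exact subst_size (by norm_num) (hG n) (up_size s false)
  have hφs : (φ s).size ≤ b := hφ s (Finset.mem_insert_self _ _)
  have hφS : ∀ u ∈ S, (φ u).size ≤ b := fun u hu => hφ u (Finset.mem_insert_of_mem hu)
  have hg4 : 1 ≤ 4 * g := by omega
  have zV : V.size ≤ b * (4 * g) := by rw [hVd]; exact subst_size hg4 hφs z0
  have hbg : 1 ≤ b * g := Nat.mul_pos hb hg
  have hgb : g ≤ b * g := Nat.le_mul_of_pos_left _ hb
  have ebg : b * (4 * g) = 4 * (b * g) := by ring
  have ebg2 : 20 * b * g = 20 * (b * g) := by ring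
  rw [ebg] at zV
  have z' : ∀ n, (G' n).size ≤ 20 * b * g := by
    intro n
    rw [ebg2]
    by_cases hns : n = s
    · rw [hns, eG's]; omega
    · by_cases hnS : n ∈ S
      · rw [eG'S n hnS]
        have := z1 n
        have := z0 n
        simp only [size]
        omega
      · rw [eG'o n hnS hns]
        simp only [size]
        omega
  rw [← hG'd]
  refine ⟨fun n hn => ?_, z', ?_⟩
  · rw [Finset.mem_insert, not_or] at hn
    exact eG'o n hn.2 hn.1
  -- the bound for all formulas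
  obtain ⟨M, hM⟩ : ∃ M, M = b * (20 * b * g) := ⟨_, rfl⟩
  have hM1 : 20 * (b * g) ≤ M := by
    rw [hM, ebg2]
    exact Nat.le_mul_of_pos_left _ hb
  have zVM : V.size ≤ M := by omega
  have znV : (neg V).size ≤ M := by simp only [size]; omega
  have z1M : ∀ n, (G1 n).size ≤ M := fun n => (z1 n).trans (by omega)
  have z0M : ∀ n, (G0 n).size ≤ M := fun n => (z0 n).trans (by omega)
  have z'M : ∀ n, (G' n).size ≤ M := fun n => (z' n).trans (by rw [ebg2]; exact hM1)
  have y1 : ∀ u ∈ insert s S, ((φ u).subst G1).size ≤ M := fun u hu =>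
    (subst_size hg4 (hφ u hu) z1).trans (by rw [ebg]; omega)
  have y0 : ∀ u ∈ insert s S, ((φ u).subst G0).size ≤ M := fun u hu =>
    (subst_size hg4 (hφ u hu) z0).trans (by rw [ebg]; omega)
  have y' : ∀ u ∈ insert s S, ((φ u).subst G').size ≤ M := fun u hu =>
    (subst_size (by rw [ebg2]; omega) (hφ u hu) z').trans hM.ge
  have zvar : ∀ n, (var n).size ≤ M := fun n => by simp only [size]; omega
  have hTM : (imp (var s) (var s)).size ≤ M := by simp only [size]; omega
  -- the instances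
  have i1 := hK.inst (σ := up s true) (M := 4) (by norm_num) (up_size s true)
  have i0 := hK.inst (σ := up s false) (M := 4) (by norm_num) (up_size s false)
  have i10 := i1.append i0
  refine ((i10.cut (m' := (S.card + 1) * (20 * c * (b * M))) ?_).le ?_)
  swap
  · rw [hM]
    have : (S.card + 1) * (20 * c * (b * (b * (20 * b * g)))) =
        (S.card + 1) * (400 * c * (b * (b * (b * g)))) := by ring
    omega
  obtain ⟨Γ, hΓd⟩ : ∃ Γ : Set Fm, Γ = ∅ ∪ {B | B ∈ (S.toList.map (eqn φ G)).map (Fm.subst (up s true)) ++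
    (S.toList.map (eqn φ G)).map (Fm.subst (up s false))} := ⟨_, rfl⟩
  rw [← hΓd]
  have hΓ1 : ∀ u ∈ S, eqn φ G1 u ∈ Γ := by
    intro u hu
    rw [hΓd]
    right
    refine List.mem_append_left _ (List.mem_map.2 ⟨eqn φ G u, List.mem_map.2
      ⟨u, Finset.mem_toList.2 hu, rfl⟩, ?_⟩)
    rw [eqn_subst, hG1d]
  have hΓ0 : ∀ u ∈ S, eqn φ G0 u ∈ Γ := by
    intro u hu
    rw [hΓd]
    right
    refine List.mem_append_right _ (List.mem_map.2 ⟨eqn φ G u, List.mem_map.2
      ⟨u, Finset.mem_toList.2 hu, rfl⟩, ?_⟩)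
    rw [eqn_subst, hG0d]
  have hss : s ∉ (φ s).vars := fun h =>
    lt_irrefl _ (hrk s (Finset.mem_insert_self _ _) s (Finset.mem_insert_self _ _) h)
  -- the children of `s` do not depend on the guess
  have hind := hi φ rk S s b (4 * g) M G1 G0 hb hg4 (by rw [ebg]; omega) (by omega) hφS
    (fun u hu v hv h => hrk u (Finset.mem_insert_of_mem hu) v (Finset.mem_insert_of_mem hv) h)
    (fun u hu h => hrk u (Finset.mem_insert_of_mem hu) s (Finset.mem_insert_self _ _) h)
    z1 z0 (fun n hn hns => ⟨e1o n hn hns, e0o n hn hns⟩) Γ hΓ1 hΓ0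
    (S.filter fun u => rk u < rk s) (Finset.filter_subset _ _)
    (fun u hu => (Finset.mem_filter.1 hu).2) (by
      intro u hu v hv hvS
      rw [Finset.mem_filter] at hu ⊢
      exact ⟨hvS, (hrk u (Finset.mem_insert_of_mem hu.1) v (Finset.mem_insert_of_mem hvS) hv).trans
        hu.2⟩)
  obtain ⟨E, hE⟩ : ∃ E : List Fm, E = (S.filter fun u => rk u < rk s).toList.map
    (fun u => imp (imp (var s) (var s)) (iff (G1 u) (G0 u))) := ⟨_, rfl⟩
  rw [← hE] at hind
  have hEm : ∀ u ∈ S, rk u < rk s → imp (imp (var s) (var s)) (iff (G1 u) (G0 u)) ∈ E := by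
    intro u hu hus
    rw [hE]
    exact List.mem_map.2 ⟨u, Finset.mem_toList.2 (Finset.mem_filter.2 ⟨hu, hus⟩), rfl⟩
  -- the worlds agree with the new formulas
  have w1 : ∀ (Δ : Set Fm) (n : ℕ), Ca F Δ [imp V (iff (G' n) (G1 n))] (c * M) := by
    intro Δ n
    by_cases hns : n = s
    · rw [hns, eG's, e1s]
      exact (h2 V (var s) M zVM (zvar s) Δ).le (k2 M)
    · by_cases hnS : n ∈ S
      · rw [eG'S n hnS]
        exact (h4 V (G1 n) (G0 n) M zVM (z1M n) (z0M n) Δ).le (k4 M)
      · rw [eG'o n hnS hns, e1o n hnS hns]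
        exact (h1 V (var n) M zVM (zvar n) Δ).le (k1 M)
  have w0 : ∀ (Δ : Set Fm) (n : ℕ), Ca F Δ [imp (neg V) (iff (G' n) (G0 n))] (c * M) := by
    intro Δ n
    by_cases hns : n = s
    · rw [hns, eG's, e0s]
      exact (h3 V (var s) M zVM (zvar s) Δ).le (k3 M)
    · by_cases hnS : n ∈ S
      · rw [eG'S n hnS]
        exact (h5 V (G1 n) (G0 n) M zVM (z1M n) (z0M n) Δ).le (k5 M)
      · rw [eG'o n hnS hns, e0o n hnS hns]
        exact (h1 (neg V) (var n) M znV (zvar n) Δ).le (k1 M)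
  have hfin : ∀ v ∈ (insert s S).toList, Ca F (Γ ∪ {B | B ∈ E}) [eqn φ G' v] (19 * c * (b * M)) := by
    intro v hv
    rw [Finset.mem_toList] at hv
    have hcM : c * M ≤ c * (b * M) := Nat.mul_le_mul_left _ (Nat.le_mul_of_pos_left _ hb)
    have hcb : ∀ u ∈ insert s S, ∀ X, (φ u).size * X ≤ b * X := fun u hu X =>
      Nat.mul_le_mul_right _ (hφ u hu)
    have hkr := kr M
    obtain ⟨Δ, hΔ⟩ : ∃ Δ : Set Fm, Δ = Γ ∪ {B | B ∈ E} := ⟨_, rfl⟩
    rw [← hΔ]
    rcases Finset.mem_insert.1 hv with hvs | hvS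
    · have hsI : s ∈ insert s S := Finset.mem_insert_self _ _
      have a0 := hr (neg V) (φ s) G' G0 M (c * M) znV (y' s hsI) (y0 s hsI) Δ (fun n _ => w0 _ n)
      have a1 := hr V (φ s) G' G0 M (2 * (c * M)) zVM (y' s hsI) (y0 s hsI) Δ (by
        intro n hn
        have hns : n ≠ s := fun h => hss (h ▸ hn)
        by_cases hnS : n ∈ S
        · have hrn : rk n < rk s := hrk s hsI n (Finset.mem_insert_of_mem hnS) hn
          have b1 := w1 Δ n
          have b2 := h8 V (var s) (G1 n) (G0 n) (G' n) M zVM (zvar s) (z1M n) (z0M n) (z'M n)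
            (Δ ∪ {B | B ∈ [imp V (iff (G' n) (G1 n))]})
            (Or.inl (by rw [hΔ]; exact Or.inr (hEm n hnS hrn))) (Or.inr (by simp))
          refine (b1.cut b2).le ?_
          have := k8 M
          omega
        · rw [eG'o n hnS hns, e0o n hnS hns]
          refine (h1 V (var n) M zVM (zvar n) Δ).le ?_
          have := k1 M
          omega)
      rw [← hVd] at a0 a1
      have a2 := h9 V ((φ s).subst G') M zVM (y' s hsI)
        (Δ ∪ {B | B ∈ [imp (neg V) (iff ((φ s).subst G') V)] ++ [imp V (iff ((φ s).subst G') V)]})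
        (Or.inr (by simp)) (Or.inr (by simp))
      have a3 := (a0.append a1).cut a2
      have e : eqn φ G' v = iff V ((φ s).subst G') := by rw [hvs, eqn, eG's]
      rw [e]
      refine a3.le ?_
      have q1 := hcb s hsI (c * M + cr * M)
      have q2 := hcb s hsI (2 * (c * M) + cr * M)
      have q3 : b * (c * M + cr * M) ≤ b * (c * M + c * M) := Nat.mul_le_mul_left _ (by omega)
      have q4 : b * (2 * (c * M) + cr * M) ≤ b * (2 * (c * M) + c * M) :=
        Nat.mul_le_mul_left _ (by omega)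
      have q5 := k9 M
      have q6 : b * (c * M + c * M) = 2 * (c * (b * M)) := by ring
      have q7 : b * (2 * (c * M) + c * M) = 3 * (c * (b * M)) := by ring
      have q8 : 19 * c * (b * M) = 19 * (c * (b * M)) := by ring
      omega
    · have hvI : v ∈ insert s S := Finset.mem_insert_of_mem hvS
      have a0 := hr (neg V) (φ v) G' G0 M (c * M) znV (y' v hvI) (y0 v hvI) Δ (fun n _ => w0 _ n)
      have a1 := hr V (φ v) G' G1 M (c * M) zVM (y' v hvI) (y1 v hvI) Δ (fun n _ => w1 _ n)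
      have b0 := w0 Δ v
      have b1 := w1 Δ v
      have ab := (a0.append b0).append (a1.append b1)
      obtain ⟨Δ', hΔ'⟩ : ∃ Δ' : Set Fm, Δ' = Δ ∪ {B | B ∈
        ([imp (neg V) (iff ((φ v).subst G') ((φ v).subst G0))] ++
          [imp (neg V) (iff (G' v) (G0 v))]) ++
        ([imp V (iff ((φ v).subst G') ((φ v).subst G1))] ++ [imp V (iff (G' v) (G1 v))])} :=
        ⟨_, rfl⟩
      have d1 := h6 V (G1 v) ((φ v).subst G1) ((φ v).subst G') (G' v) M zVM (z1M v) (y1 v hvI)
        (y' v hvI) (z'M v) Δ'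
        (by rw [hΔ', hΔ]; exact Or.inl (Or.inl (hΓ1 v hvS)))
        (by rw [hΔ']; exact Or.inr (by simp)) (by rw [hΔ']; exact Or.inr (by simp))
      have d0 := h6 (neg V) (G0 v) ((φ v).subst G0) ((φ v).subst G') (G' v) M znV (z0M v)
        (y0 v hvI) (y' v hvI) (z'M v) Δ'
        (by rw [hΔ', hΔ]; exact Or.inl (Or.inl (hΓ0 v hvS)))
        (by rw [hΔ']; exact Or.inr (by simp)) (by rw [hΔ']; exact Or.inr (by simp))
      have dd := d1.append d0
      have e0 := h7 V (iff (G' v) ((φ v).subst G')) (7 * M) (by omega) (by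
        have := z'M v
        have := y' v hvI
        simp only [iff, size]
        omega) (Δ' ∪ {B | B ∈ [imp V (iff (G' v) ((φ v).subst G'))] ++
          [imp (neg V) (iff (G' v) ((φ v).subst G'))]}) (Or.inr (by simp)) (Or.inr (by simp))
      have e1 := dd.cut e0
      rw [hΔ'] at e1
      refine (ab.cut e1).le ?_
      have q1 := hcb v hvI (c * M + cr * M)
      have q3 : b * (c * M + cr * M) ≤ b * (c * M + c * M) := Nat.mul_le_mul_left _ (by omega)
      have q5 := k6 M
      have q5' := k7 (7 * M)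
      have q5'' : c * (7 * M) = 7 * (c * M) := by ring
      have q6 : b * (c * M + c * M) = 2 * (c * (b * M)) := by ring
      have q8 : 19 * c * (b * M) = 19 * (c * (b * M)) := by ring
      omega
  have hall := Ca.many (eqn φ G') (19 * c * (b * M)) (insert s S).toList hfin
  refine (hind.cut hall).le ?_
  rw [Finset.length_toList, Finset.card_insert_of_notMem hsS]
  have q1 : (S.filter fun u => rk u < rk s).card * (ci * (b * M)) ≤
      (S.card + 1) * (c * (b * M)) :=
    Nat.mul_le_mul ((Finset.card_filter_le _ _).trans (Nat.le_succ _)) (ki (b * M))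
  calc _ ≤ (S.card + 1) * (c * (b * M)) + (S.card + 1) * (19 * c * (b * M)) :=
        Nat.add_le_add_right q1 _
    _ = _ := by ring

end Pool.Agent.TH677.EF
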