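import Pool.Agent.TH677.EF.Tree

/-! # The decomposition depth of systems of `m` small definitions is `O(m / log m)`
(the argument of Paterson and Valiant) -/

set_option autoImplicit false

namespace Pool.Agent.TH677.EF

open Pool.Agent.H555R2.PF Pool.Agent.H555R2.PF.Fm Finset

/-- the pairs (variable of `S`, variable of `T` in its definition) -/
def dep (φ : ℕ → Fm) (S T : Finset ℕ) : Finset (ℕ × ℕ) :=
  (S ×ˢ T).filter fun p => p.2 ∈ (φ p.1).vars

theorem mem_dep {φ : ℕ → Fm} {S T : Finset ℕ} {p : ℕ × ℕ} :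
    p ∈ dep φ S T ↔ p.1 ∈ S ∧ p.2 ∈ T ∧ p.2 ∈ (φ p.1).vars := by
  simp [dep, and_assoc]

/-- constants of the induction -/
def gam : ℕ → ℕ
  | 0 => 1
  | j + 1 => 2 * gam j + 3

theorem gam_le (j : ℕ) : gam j + 3 ≤ 4 * 2 ^ j := by
  induction j with
  | zero => simp [gam]
  | succ j ih => simp only [gam, pow_succ]; omega

theorem gam_pos (j : ℕ) : 1 ≤ gam j := by
  cases j <;> simp [gam]

/-- few dependencies -/
theorem dec_few {φ : ℕ → Fm} (S : Finset ℕ) :
    Dec φ S ((dep φ S S).card + 1) := by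
  classical
  obtain ⟨H, hH⟩ : ∃ H, H = S.filter fun u => ∃ v ∈ S, v ∈ (φ u).vars := ⟨_, rfl⟩
  obtain ⟨P, hP⟩ : ∃ P, P = S.filter fun u => ¬ ∃ v ∈ S, v ∈ (φ u).vars := ⟨_, rfl⟩
  have h1 : Dec φ P 1 := by
    refine Dec.classes (fun u => u) ?_ ?_
    · intro i
      by_cases hi : i ∈ P
      · have : P.filter (fun u => u = i) = insert i ∅ := by
          ext x
          simp only [mem_filter, mem_insert, notMem_empty, or_false]
          constructor
          · exact fun h => h.2
          · rintro rfl; exact ⟨hi, rfl⟩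
        rw [this]
        exact Dec.guess (by simp) (Dec.empty 0)
      · have : P.filter (fun u => u = i) = ∅ := by
          ext x
          simp only [mem_filter, notMem_empty, iff_false, not_and]
          rintro h rfl
          exact hi h
        rw [this]
        exact Dec.empty 1
    · intro u hu v hv huv
      exfalso
      rw [hP, mem_filter] at hu hv
      exact hu.2 ⟨v, hv.1, huv⟩
  have h2 : H.card ≤ (dep φ S S).card := by
    have : H ⊆ (dep φ S S).image Prod.fst := by
      intro u hu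
      rw [hH, mem_filter] at hu
      obtain ⟨hu, v, hv, huv⟩ := hu
      exact mem_image.2 ⟨(u, v), mem_dep.2 ⟨hu, hv, huv⟩, rfl⟩
    exact (card_le_card this).trans card_image_le
  have h3 := h1.guesses H (by rw [hP, hH]; exact (disjoint_filter_filter_not _ _ _).symm)
  have h4 : P ∪ H = S := by
    rw [hP, hH, union_comm]
    exact filter_union_filter_not_eq _ _
  rw [h4] at h3
  exact h3.mono (by omega)

theorem arith_B {J d e e1 e2 cut g : ℕ} (hJ : 1 ≤ J) (he : e1 + e2 + cut = e)
    (hd : 3 * e + (J + 1) * (2 * g + 3) ≤ (J + 1) * d) (hc : e < cut * (J + 1)) :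
    (3 * e1 / J + 1 + g) + (3 * e2 / J + 1 + g) ≤ d := by
  have h1 : J * (3 * e1 / J) ≤ 3 * e1 := Nat.mul_div_le _ _
  have h2 : J * (3 * e2 / J) ≤ 3 * e2 := Nat.mul_div_le _ _
  generalize 3 * e1 / J = x at *
  generalize 3 * e2 / J = y at *
  by_contra h
  push Not at h
  have h3 : d + 1 ≤ x + y + 2 + 2 * g := by omega
  have h4 : J * (d + 1) ≤ 3 * e1 + 3 * e2 + J * (2 + 2 * g) := by
    calc J * (d + 1) ≤ J * (x + y + 2 + 2 * g) := Nat.mul_le_mul_left _ h3
      _ = J * x + J * y + J * (2 + 2 * g) := by ring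
      _ ≤ _ := by omega
  have h5 : (J + 1) * (J * (d + 1)) ≤ (J + 1) * (3 * e1 + 3 * e2 + J * (2 + 2 * g)) :=
    Nat.mul_le_mul_left _ h4
  have h6 : J * (3 * e + (J + 1) * (2 * g + 3)) ≤ J * ((J + 1) * d) := Nat.mul_le_mul_left _ hd
  subst he
  nlinarith

theorem arith_A {J d e e' cut g : ℕ} (hJ : 3 ≤ J) (he : 2 * e' ≤ e + 5)
    (hd : 3 * e + (J + 1) * (2 * g + 3) ≤ (J + 1) * d) (hc : cut * (J + 1) ≤ e) :
    cut ≤ d ∧ 3 * e' + J * g ≤ J * (d - cut) := by
  have h1 : cut ≤ d := by
    by_contra h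
    push Not at h
    have : (J + 1) * d ≤ (J + 1) * cut := Nat.mul_le_mul_left _ h.le
    nlinarith
  refine ⟨h1, ?_⟩
  obtain ⟨x, rfl⟩ := Nat.exists_eq_add_of_le h1
  rw [Nat.add_sub_cancel_left]
  have h2 : 2 * e + (J + 1) * (2 * g + 3) ≤ (J + 1) * x := by nlinarith
  by_contra h
  push Not at h
  have h3 : (J + 1) * (2 * (J * x) + 1) ≤ (J + 1) * (2 * (3 * e' + J * g)) :=
    Nat.mul_le_mul_left _ (by omega)
  have h4 : (2 * J) * (2 * e + (J + 1) * (2 * g + 3)) ≤ (2 * J) * ((J + 1) * x) :=
    Nat.mul_le_mul_left _ h2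
  have h5 : (J + 1) * (6 * e') ≤ (J + 1) * (3 * (e + 5)) := Nat.mul_le_mul_left _ (by omega)
  have h6 : 3 * (J + 1) * e ≤ 4 * J * e := Nat.mul_le_mul_right _ (by omega)
  nlinarith

/-- the induction of Paterson and Valiant -/
theorem pv {φ : ℕ → Fm} {rk : ℕ → ℕ} {X : Finset ℕ} (hφ : ∀ u ∈ X, (φ u).size ≤ 3)
    (hrk : ∀ u ∈ X, ∀ v ∈ X, v ∈ (φ u).vars → rk v < rk u)
    (hinj : ∀ u ∈ X, ∀ v ∈ X, rk u = rk v → u = v) :
    ∀ (j : ℕ) (S : Finset ℕ), S ⊆ X → ∀ d, 3 * (dep φ S S).card + (j + 3) * gam j ≤ (j + 3) * d →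
      Dec φ S d := by
  classical
  intro j
  induction j with
  | zero =>
    intro S hS d hd
    refine (dec_few S).mono ?_
    simp only [gam] at hd
    omega
  | succ j ih =>
    intro S hS d hd
    obtain ⟨e, he⟩ : ∃ e, e = (dep φ S S).card := ⟨_, rfl⟩
    rw [← he] at hd
    rcases Nat.eq_zero_or_pos e with h0 | h0
    · refine (dec_few S).mono ?_
      rw [← he, h0]
      by_contra h
      have hd0 : d = 0 := by omega
      rw [hd0, h0] at hd
      have := gam_pos (j + 1)
      have : 1 ≤ (j + 1 + 3) * gam (j + 1) := Nat.mul_pos (by omega) this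
      omega
    -- the prefixes
    obtain ⟨Q, hQ⟩ : ∃ Q : ℕ → Finset ℕ, Q = fun r => S.filter fun u => rk u < r := ⟨_, rfl⟩
    have hex : ∃ r, e < 2 * (dep φ (Q r) (Q r)).card := by
      refine ⟨S.sup rk + 1, ?_⟩
      have : Q (S.sup rk + 1) = S := by
        rw [hQ]
        exact filter_true_of_mem fun u hu => Nat.lt_succ_of_le (le_sup hu)
      rw [this, ← he]
      omega
    have hr1 := Nat.find_spec hex
    have hr0 : Nat.find hex ≠ 0 := by
      intro h
      rw [h] at hr1
      have : Q 0 = ∅ := by rw [hQ]; simp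
      rw [this] at hr1
      simp [dep] at hr1
    obtain ⟨r, hr⟩ := Nat.exists_eq_succ_of_ne_zero hr0
    have hr2 := Nat.find_min hex (show r < Nat.find hex by omega)
    rw [hr] at hr1
    push Not at hr2
    obtain ⟨X1, hX1⟩ : ∃ X1, X1 = Q r := ⟨_, rfl⟩
    obtain ⟨X2, hX2⟩ : ∃ X2, X2 = S.filter fun u => ¬ rk u < r := ⟨_, rfl⟩
    have hX1' : X1 = S.filter fun u => rk u < r := by rw [hX1, hQ]
    have hX1S : X1 ⊆ S := by rw [hX1']; exact filter_subset _ _
    have hX2S : X2 ⊆ S := by rw [hX2]; exact filter_subset _ _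
    have hdis : Disjoint X1 X2 := by
      rw [hX1', hX2]
      exact disjoint_filter_filter_not _ _ _
    have hun : X1 ∪ X2 = S := by
      rw [hX1', hX2]
      exact filter_union_filter_not_eq _ _
    have hback : ∀ u ∈ X1, ∀ v ∈ X2, v ∉ (φ u).vars := by
      intro u hu v hv h
      have h1 := hrk u (hS (hX1S hu)) v (hS (hX2S hv)) h
      rw [hX1', mem_filter] at hu
      rw [hX2, mem_filter] at hv
      omega
    -- the number of dependencies
    have hsum : (dep φ X1 X1).card + (dep φ X2 X2).card + (dep φ X2 X1).card = e := by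
      have h1 : dep φ S S = (dep φ X1 X1 ∪ dep φ X2 X2) ∪ dep φ X2 X1 := by
        ext p
        simp only [mem_union, mem_dep]
        constructor
        · rintro ⟨g1, g2, g3⟩
          rw [← hun, mem_union] at g1 g2
          rcases g1 with g1 | g1 <;> rcases g2 with g2 | g2
          · exact Or.inl (Or.inl ⟨g1, g2, g3⟩)
          · exact absurd g3 (hback _ g1 _ g2)
          · exact Or.inr ⟨g1, g2, g3⟩
          · exact Or.inl (Or.inr ⟨g1, g2, g3⟩)
        · rintro ((⟨g1, g2, g3⟩ | ⟨g1, g2, g3⟩) | ⟨g1, g2, g3⟩)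
          · exact ⟨hX1S g1, hX1S g2, g3⟩
          · exact ⟨hX2S g1, hX2S g2, g3⟩
          · exact ⟨hX2S g1, hX1S g2, g3⟩
      have h2 : Disjoint (dep φ X1 X1) (dep φ X2 X2) := by
        rw [disjoint_left]
        intro p g1 g2
        exact disjoint_left.1 hdis (mem_dep.1 g1).1 (mem_dep.1 g2).1
      have h3 : Disjoint (dep φ X1 X1 ∪ dep φ X2 X2) (dep φ X2 X1) := by
        rw [disjoint_left]
        intro p g1 g2
        rcases mem_union.1 g1 with g1 | g1
        · exact disjoint_left.1 hdis (mem_dep.1 g1).1 (mem_dep.1 g2).1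
        · exact disjoint_left.1 hdis (mem_dep.1 g2).2.1 (mem_dep.1 g1).2.1
      rw [he, h1, card_union_of_disjoint h3, card_union_of_disjoint h2]
    have hnext : (dep φ (Q (r + 1)) (Q (r + 1))).card ≤ (dep φ X1 X1).card + 3 := by
      by_cases hex' : ∃ u ∈ S, rk u = r
      · obtain ⟨u, huS, hur⟩ := hex'
        have hsub : dep φ (Q (r + 1)) (Q (r + 1)) ⊆
            dep φ X1 X1 ∪ (φ u).vars.image (fun v => (u, v)) := by
          intro p hp
          rw [mem_dep, hQ] at hp
          simp only [mem_filter] at hp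
          obtain ⟨⟨g1, g2⟩, ⟨g3, g4⟩, g5⟩ := hp
          have g6 := hrk _ (hS g1) _ (hS g3) g5
          rw [mem_union]
          by_cases g7 : rk p.1 < r
          · left
            rw [mem_dep, hX1', mem_filter, mem_filter]
            exact ⟨⟨g1, g7⟩, ⟨g3, by omega⟩, g5⟩
          · right
            have g8 : p.1 = u := hinj _ (hS g1) _ (hS huS) (by omega)
            rw [mem_image]
            exact ⟨p.2, g8 ▸ g5, by rw [← g8]⟩
        refine (card_le_card hsub).trans ((card_union_le _ _).trans ?_)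
        have := (vars_card_le (φ u)).trans (hφ u (hS huS))
        have := (card_image_le (s := (φ u).vars) (f := fun v => (u, v)))
        omega
      · have : Q (r + 1) = X1 := by
          rw [hQ, hX1']
          ext x
          simp only [mem_filter]
          constructor
          · rintro ⟨g1, g2⟩
            refine ⟨g1, ?_⟩
            by_contra g3
            exact hex' ⟨x, g1, by omega⟩
          · rintro ⟨g1, g2⟩
            exact ⟨g1, by omega⟩
        rw [this]
        omega
    rw [← hX1] at hr2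
    obtain ⟨e1, he1⟩ : ∃ e1, e1 = (dep φ X1 X1).card := ⟨_, rfl⟩
    obtain ⟨e2, he2⟩ : ∃ e2, e2 = (dep φ X2 X2).card := ⟨_, rfl⟩
    obtain ⟨cut, hcut⟩ : ∃ cut, cut = (dep φ X2 X1).card := ⟨_, rfl⟩
    rw [← he1, ← he2, ← hcut] at hsum
    rw [← he1] at hnext hr2
    have hr1' : e < 2 * (e1 + 3) := lt_of_lt_of_le hr1 (Nat.mul_le_mul_left _ hnext)
    have hgam : gam (j + 1) = 2 * gam j + 3 := rfl
    rw [hgam, show j + 1 + 3 = (j + 3) + 1 by ring] at hd
    by_cases hc : cut * ((j + 3) + 1) ≤ e
    · -- guess the tails of the cut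
      obtain ⟨D, hD⟩ : ∃ D, D = (dep φ X2 X1).image Prod.snd := ⟨_, rfl⟩
      have hDX : D ⊆ X1 := by
        intro v hv
        rw [hD, mem_image] at hv
        obtain ⟨p, hp, rfl⟩ := hv
        exact (mem_dep.1 hp).2.1
      have hDc : D.card ≤ cut := by rw [hD, hcut]; exact card_image_le
      obtain ⟨a1, a2⟩ := arith_A (J := j + 3) (e' := e1) (by omega) (by omega) hd hc
      obtain ⟨-, a3⟩ := arith_A (J := j + 3) (e' := e2) (by omega) (by omega) hd hc
      have d1 : Dec φ (X1 \ D) (d - cut) := by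
        refine ih _ (sdiff_subset.trans (hX1S.trans hS)) _ (le_trans ?_ a2)
        have : (dep φ (X1 \ D) (X1 \ D)).card ≤ e1 := by
          rw [he1]
          refine card_le_card fun p hp => ?_
          rw [mem_dep] at hp ⊢
          exact ⟨sdiff_subset hp.1, sdiff_subset hp.2.1, hp.2.2⟩
        omega
      have d2 : Dec φ X2 (d - cut) := by
        refine ih _ (hX2S.trans hS) _ (le_trans ?_ a3)
        rw [← he2]
      have d3 := Dec.split (disjoint_of_subset_left sdiff_subset hdis) d1 d2 (by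
        intro u hu v hv
        refine ⟨hback u (sdiff_subset hu) v hv, fun h => ?_⟩
        rw [mem_sdiff] at hu
        refine hu.2 ?_
        rw [hD, mem_image]
        exact ⟨(v, u), mem_dep.2 ⟨hv, hu.1, h⟩, rfl⟩)
      have d4 := d3.guesses D (by
        rw [disjoint_union_left]
        exact ⟨sdiff_disjoint, (disjoint_of_subset_left hDX hdis).symm⟩)
      have e4 : (X1 \ D ∪ X2) ∪ D = S := by
        rw [← hun]
        ext x
        simp only [mem_union, mem_sdiff]
        constructor
        · rintro ((h | h) | h)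
          · exact Or.inl h.1
          · exact Or.inr h
          · exact Or.inl (hDX h)
        · rintro (h | h)
          · by_cases hx : x ∈ D
            · exact Or.inr hx
            · exact Or.inl (Or.inl ⟨h, hx⟩)
          · exact Or.inl (Or.inr h)
      rw [e4] at d4
      exact d4.mono (by omega)
    · -- compose
      push Not at hc
      have b1 := arith_B (J := j + 3) (by omega) hsum hd hc
      have hdiv : ∀ x : ℕ, 3 * x + (j + 3) * gam j ≤ (j + 3) * (3 * x / (j + 3) + 1 + gam j) := by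
        intro x
        have := Nat.lt_mul_div_succ (3 * x) (show 0 < j + 3 by omega)
        rw [mul_add (j + 3) (3 * x / (j + 3) + 1) (gam j)]
        omega
      have d1 : Dec φ X1 (3 * e1 / (j + 3) + 1 + gam j) := by
        refine ih _ (hX1S.trans hS) _ ?_
        rw [← he1]
        exact hdiv e1
      have d2 : Dec φ X2 (3 * e2 / (j + 3) + 1 + gam j) := by
        refine ih _ (hX2S.trans hS) _ ?_
        rw [← he2]
        exact hdiv e2
      have d3 := Dec.comp hdis d1 d2 hback
      rw [hun] at d3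
      exact d3.mono b1

end Pool.Agent.TH677.EF
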