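import Pool.Agent.TH677.EF.Can

/-! # The schemas that are needed -/

set_option autoImplicit false

namespace Pool.Agent.TH677.EF

open Pool.Agent.H555R2.PF Pool.Agent.H555R2.PF.Fm

variable {F : List Rule}

theorem s1 (hF : IsFrege F) : ∃ c : ℕ, ∀ (H X : Fm) (M : ℕ), H.size ≤ M → X.size ≤ M →
    ∀ Γ : Set Fm, Ca F Γ [imp H (iff X X)] (c * M) := by
  obtain ⟨c, h⟩ := schemaC hF [] (imp (var 0) (iff (var 1) (var 1))) (by
    intro v _; simp [eval, iff])
  refine ⟨c, fun H X M h0 h1 Γ => ?_⟩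
  have := h [H, X] M ((size_pos H).trans h0) (by
    intro Y hY; simp at hY; rcases hY with rfl | rfl; exacts [h0, h1]) Γ (by simp)
  simpa [subst, asg, iff] using this

theorem s2 (hF : IsFrege F) : ∃ c : ℕ, ∀ (V X : Fm) (M : ℕ), V.size ≤ M → X.size ≤ M →
    ∀ Γ : Set Fm, Ca F Γ [imp V (iff V (imp X X))] (c * M) := by
  obtain ⟨c, h⟩ := schemaC hF [] (imp (var 0) (iff (var 0) (imp (var 1) (var 1)))) (by
    intro v _; simp [eval, iff])
  refine ⟨c, fun V X M h0 h1 Γ => ?_⟩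
  have := h [V, X] M ((size_pos V).trans h0) (by
    intro Y hY; simp at hY; rcases hY with rfl | rfl; exacts [h0, h1]) Γ (by simp)
  simpa [subst, asg, iff] using this

theorem s3 (hF : IsFrege F) : ∃ c : ℕ, ∀ (V X : Fm) (M : ℕ), V.size ≤ M → X.size ≤ M →
    ∀ Γ : Set Fm, Ca F Γ [imp (neg V) (iff V (neg (imp X X)))] (c * M) := by
  obtain ⟨c, h⟩ := schemaC hF [] (imp (neg (var 0)) (iff (var 0) (neg (imp (var 1) (var 1))))) (by
    intro v _; simp [eval, iff])
  refine ⟨c, fun V X M h0 h1 Γ => ?_⟩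
  have := h [V, X] M ((size_pos V).trans h0) (by
    intro Y hY; simp at hY; rcases hY with rfl | rfl; exacts [h0, h1]) Γ (by simp)
  simpa [subst, asg, iff] using this

theorem s4 (hF : IsFrege F) : ∃ c : ℕ, ∀ (V X Y : Fm) (M : ℕ), V.size ≤ M → X.size ≤ M →
    Y.size ≤ M → ∀ Γ : Set Fm,
    Ca F Γ [imp V (iff (or (and V X) (and (neg V) Y)) X)] (c * M) := by
  obtain ⟨c, h⟩ := schemaC hF []
    (imp (var 0) (iff (or (and (var 0) (var 1)) (and (neg (var 0)) (var 2))) (var 1))) (by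
    intro v _; simp [eval, iff]; tauto)
  refine ⟨c, fun V X Y M h0 h1 h2 Γ => ?_⟩
  have := h [V, X, Y] M ((size_pos V).trans h0) (by
    intro Z hZ; simp at hZ; rcases hZ with rfl | rfl | rfl; exacts [h0, h1, h2]) Γ (by simp)
  simpa [subst, asg, iff] using this

theorem s5 (hF : IsFrege F) : ∃ c : ℕ, ∀ (V X Y : Fm) (M : ℕ), V.size ≤ M → X.size ≤ M →
    Y.size ≤ M → ∀ Γ : Set Fm,
    Ca F Γ [imp (neg V) (iff (or (and V X) (and (neg V) Y)) Y)] (c * M) := by
  obtain ⟨c, h⟩ := schemaC hF []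
    (imp (neg (var 0)) (iff (or (and (var 0) (var 1)) (and (neg (var 0)) (var 2))) (var 2))) (by
    intro v _; simp [eval, iff]; tauto)
  refine ⟨c, fun V X Y M h0 h1 h2 Γ => ?_⟩
  have := h [V, X, Y] M ((size_pos V).trans h0) (by
    intro Z hZ; simp at hZ; rcases hZ with rfl | rfl | rfl; exacts [h0, h1, h2]) Γ (by simp)
  simpa [subst, asg, iff] using this

theorem s6 (hF : IsFrege F) : ∃ c : ℕ, ∀ (H A B C D : Fm) (M : ℕ), H.size ≤ M → A.size ≤ M →
    B.size ≤ M → C.size ≤ M → D.size ≤ M → ∀ Γ : Set Fm, iff A B ∈ Γ → imp H (iff C B) ∈ Γ →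
    imp H (iff D A) ∈ Γ → Ca F Γ [imp H (iff D C)] (c * M) := by
  obtain ⟨c, h⟩ := schemaC hF [iff (var 1) (var 2), imp (var 0) (iff (var 3) (var 2)),
      imp (var 0) (iff (var 4) (var 1))] (imp (var 0) (iff (var 4) (var 3))) (by
    intro v h; simp [eval, iff] at h ⊢; tauto)
  refine ⟨c, fun H A B C D M h0 h1 h2 h3 h4 Γ g1 g2 g3 => ?_⟩
  have := h [H, A, B, C, D] M ((size_pos H).trans h0) (by
    intro Z hZ; simp at hZ; rcases hZ with rfl | rfl | rfl | rfl | rfl
    exacts [h0, h1, h2, h3, h4]) Γ (by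
    intro Y hY
    simp only [List.mem_cons, List.not_mem_nil, or_false] at hY
    rcases hY with rfl | rfl | rfl
    · simpa [subst, asg, iff] using g1
    · simpa [subst, asg, iff] using g2
    · simpa [subst, asg, iff] using g3)
  simpa [subst, asg, iff] using this

theorem s7 (hF : IsFrege F) : ∃ c : ℕ, ∀ (V X : Fm) (M : ℕ), V.size ≤ M → X.size ≤ M →
    ∀ Γ : Set Fm, imp V X ∈ Γ → imp (neg V) X ∈ Γ → Ca F Γ [X] (c * M) := by
  obtain ⟨c, h⟩ := schemaC hF [imp (var 0) (var 1), imp (neg (var 0)) (var 1)] (var 1) (by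
    intro v h; simp [eval] at h ⊢; tauto)
  refine ⟨c, fun V X M h0 h1 Γ g1 g2 => ?_⟩
  have := h [V, X] M ((size_pos V).trans h0) (by
    intro Y hY; simp at hY; rcases hY with rfl | rfl; exacts [h0, h1]) Γ (by
    intro Y hY
    simp only [List.mem_cons, List.not_mem_nil, or_false] at hY
    rcases hY with rfl | rfl
    · simpa [subst, asg, iff] using g1
    · simpa [subst, asg, iff] using g2)
  simpa [subst, asg, iff] using this

theorem s8 (hF : IsFrege F) : ∃ c : ℕ, ∀ (H T A B D : Fm) (M : ℕ), H.size ≤ M → T.size ≤ M →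
    A.size ≤ M → B.size ≤ M → D.size ≤ M → ∀ Γ : Set Fm, imp (imp T T) (iff A B) ∈ Γ →
    imp H (iff D A) ∈ Γ → Ca F Γ [imp H (iff D B)] (c * M) := by
  obtain ⟨c, h⟩ := schemaC hF [imp (imp (var 1) (var 1)) (iff (var 2) (var 3)),
      imp (var 0) (iff (var 4) (var 2))] (imp (var 0) (iff (var 4) (var 3))) (by
    intro v h; simp [eval, iff] at h ⊢; tauto)
  refine ⟨c, fun H T A B D M h0 h1 h2 h3 h4 Γ g1 g2 => ?_⟩
  have := h [H, T, A, B, D] M ((size_pos H).trans h0) (by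
    intro Z hZ; simp at hZ; rcases hZ with rfl | rfl | rfl | rfl | rfl
    exacts [h0, h1, h2, h3, h4]) Γ (by
    intro Y hY
    simp only [List.mem_cons, List.not_mem_nil, or_false] at hY
    rcases hY with rfl | rfl
    · simpa [subst, asg, iff] using g1
    · simpa [subst, asg, iff] using g2)
  simpa [subst, asg, iff] using this

theorem s9 (hF : IsFrege F) : ∃ c : ℕ, ∀ (V W : Fm) (M : ℕ), V.size ≤ M → W.size ≤ M →
    ∀ Γ : Set Fm, imp V (iff W V) ∈ Γ → imp (neg V) (iff W V) ∈ Γ → Ca F Γ [iff V W] (c * M) := by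
  obtain ⟨c, h⟩ := schemaC hF [imp (var 0) (iff (var 1) (var 0)),
      imp (neg (var 0)) (iff (var 1) (var 0))] (iff (var 0) (var 1)) (by
    intro v h; simp [eval, iff] at h ⊢; tauto)
  refine ⟨c, fun V X M h0 h1 Γ g1 g2 => ?_⟩
  have := h [V, X] M ((size_pos V).trans h0) (by
    intro Y hY; simp at hY; rcases hY with rfl | rfl; exacts [h0, h1]) Γ (by
    intro Y hY
    simp only [List.mem_cons, List.not_mem_nil, or_false] at hY
    rcases hY with rfl | rfl
    · simpa [subst, asg, iff] using g1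
    · simpa [subst, asg, iff] using g2)
  simpa [subst, asg, iff] using this

theorem s10 (hF : IsFrege F) : ∃ c : ℕ, ∀ (H A B C D : Fm) (M : ℕ), H.size ≤ M → A.size ≤ M →
    B.size ≤ M → C.size ≤ M → D.size ≤ M → ∀ Γ : Set Fm, iff A B ∈ Γ → iff C D ∈ Γ →
    imp H (iff B D) ∈ Γ → Ca F Γ [imp H (iff A C)] (c * M) := by
  obtain ⟨c, h⟩ := schemaC hF [iff (var 1) (var 2), iff (var 3) (var 4),
      imp (var 0) (iff (var 2) (var 4))] (imp (var 0) (iff (var 1) (var 3))) (by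
    intro v h; simp [eval, iff] at h ⊢; tauto)
  refine ⟨c, fun H A B C D M h0 h1 h2 h3 h4 Γ g1 g2 g3 => ?_⟩
  have := h [H, A, B, C, D] M ((size_pos H).trans h0) (by
    intro Z hZ; simp at hZ; rcases hZ with rfl | rfl | rfl | rfl | rfl
    exacts [h0, h1, h2, h3, h4]) Γ (by
    intro Y hY
    simp only [List.mem_cons, List.not_mem_nil, or_false] at hY
    rcases hY with rfl | rfl | rfl
    · simpa [subst, asg, iff] using g1
    · simpa [subst, asg, iff] using g2
    · simpa [subst, asg, iff] using g3)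
  simpa [subst, asg, iff] using this

/-- replacement, the equivalences being derived before -/
theorem repl' (hF : IsFrege F) : ∃ c : ℕ, ∀ (H B : Fm) (σ τ : ℕ → Fm) (M K : ℕ),
    H.size ≤ M → (B.subst σ).size ≤ M → (B.subst τ).size ≤ M → ∀ Γ : Set Fm,
    (∀ n ∈ B.vars, Ca F Γ [imp H (iff (σ n) (τ n))] K) →
    Ca F Γ [imp H (iff (B.subst σ) (B.subst τ))] (B.size * (K + c * M)) := by
  obtain ⟨c, h⟩ := repl F hF
  refine ⟨c, fun H B σ τ M K h0 h1 h2 Γ hΓ => ?_⟩
  have g1 := Ca.many (fun n => imp H (iff (σ n) (τ n))) K B.vars.toList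
    (fun n hn => hΓ n (Finset.mem_toList.1 hn))
  have g2 := h H B σ τ M h0 h1 h2
    (Γ ∪ {Y | Y ∈ B.vars.toList.map fun n => imp H (iff (σ n) (τ n))}) (by
      intro n hn
      right
      exact List.mem_map.2 ⟨n, Finset.mem_toList.2 hn, rfl⟩)
  refine (g1.cut g2).le ?_
  have h3 := vars_card_le B
  rw [Finset.length_toList]
  nlinarith

end Pool.Agent.TH677.EF
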