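import Pool.Agent.TH677.EF.Solve

/-! # From extended Frege proofs to Frege proofs -/

set_option autoImplicit false

namespace Pool.Agent.TH677.EF

open Pool.Agent.H555R2.PF Pool.Agent.H555R2.PF.Fm

/-- `EFP F A E L`: the list `L` (last line first) is an initial segment of an extended Frege proof
of `A`, and `E` is the list of the extension axioms `q ↔ ψ` that have been used, as pairs
`(q, ψ)`, the last one first. -/
inductive EFP (F : List Rule) (A : Fm) : List (ℕ × Fm) → List Fm → Prop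
  | nil : EFP F A [] []
  | rule {E : List (ℕ × Fm)} {L : List Fm} {B : Fm} :
      EFP F A E L → FregeStep F L B → EFP F A E (B :: L)
  | ext {E : List (ℕ × Fm)} {L : List Fm} {q : ℕ} {ψ : Fm} : EFP F A E L → q ∉ ψ.vars →
      (∀ C ∈ L, q ∉ C.vars) → q ∉ A.vars → EFP F A ((q, ψ) :: E) (iff (var q) ψ :: L)

/-- the definition of the extension variable `n` -/
def dfn : List (ℕ × Fm) → ℕ → Fm
  | [], n => var n
  | (q, ψ) :: E, n => if n = q then ψ else dfn E n

/-- the extension variables -/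
def keys (E : List (ℕ × Fm)) : Finset ℕ := (E.map Prod.fst).toFinset

theorem mem_keys {E : List (ℕ × Fm)} {n : ℕ} : n ∈ keys E ↔ ∃ ψ, (n, ψ) ∈ E := by
  simp [keys]

/-- the number of the definition -/
def rnk : List (ℕ × Fm) → ℕ → ℕ
  | [], _ => 0
  | (q, _) :: E, n => if n = q then E.length + 1 else rnk E n

theorem rnk_le (E : List (ℕ × Fm)) (n : ℕ) : rnk E n ≤ E.length := by
  induction E with
  | nil => simp [rnk]
  | cons p E ih =>
    obtain ⟨q, ψ⟩ := p
    simp only [rnk, List.length_cons]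
    split_ifs
    · exact le_rfl
    · omega

/-- well-formed lists of extension axioms -/
def WFE (A : Fm) : List (ℕ × Fm) → Prop
  | [] => True
  | (q, ψ) :: E => (q ∉ ψ.vars ∧ q ∉ A.vars ∧ ∀ p ∈ E, p.1 ≠ q ∧ q ∉ p.2.vars) ∧ WFE A E

variable {F : List Rule} {A : Fm} {E : List (ℕ × Fm)} {L : List Fm}

theorem EFP.mem (h : EFP F A E L) : ∀ p ∈ E, iff (var p.1) p.2 ∈ L := by
  induction h with
  | nil => simp
  | rule _ _ ih => exact fun p hp => List.mem_cons_of_mem _ (ih p hp)
  | ext _ _ _ _ ih =>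
    intro p hp
    rcases List.mem_cons.1 hp with rfl | hp
    · simp
    · exact List.mem_cons_of_mem _ (ih p hp)

theorem EFP.wfe (h : EFP F A E L) : WFE A E := by
  induction h with
  | nil => exact trivial
  | rule _ _ ih => exact ih
  | @ext E L q ψ h h1 h2 h3 ih =>
    refine ⟨⟨h1, h3, fun p hp => ?_⟩, ih⟩
    have h4 := h2 _ (h.mem p hp)
    simp only [iff, vars, Finset.mem_union, Finset.mem_singleton, not_or] at h4
    exact ⟨fun h => h4.1.1 h.symm, h4.1.2⟩

theorem EFP.length_le (h : EFP F A E L) : E.length ≤ L.length := by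
  induction h with
  | nil => exact le_rfl
  | rule _ _ ih => exact ih.trans (by simp)
  | ext _ _ _ _ ih => simpa using ih

theorem dfn_mem (h : WFE A E) : ∀ p ∈ E, dfn E p.1 = p.2 := by
  induction E with
  | nil => simp
  | cons p E ih =>
    obtain ⟨q, ψ⟩ := p
    intro p hp
    rcases List.mem_cons.1 hp with rfl | hp
    · simp [dfn]
    · have := (h.1.2.2 p hp).1
      simp only [dfn, this, if_false]
      exact ih h.2 p hp

theorem key_notMem (h : WFE A E) {n : ℕ} (hn : n ∈ keys E) : n ∉ A.vars := by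
  induction E with
  | nil => simp [keys] at hn
  | cons p E ih =>
    obtain ⟨q, ψ⟩ := p
    simp only [keys, List.map_cons, List.toFinset_cons, Finset.mem_insert] at hn
    rcases hn with rfl | hn
    · exact h.1.2.1
    · exact ih h.2 hn

theorem dfn_size (h : WFE A E) {b : ℕ} (hb : ∀ p ∈ E, p.2.size ≤ b) : ∀ n ∈ keys E,
    (dfn E n).size ≤ b := by
  intro n hn
  obtain ⟨ψ, hψ⟩ := mem_keys.1 hn
  have := dfn_mem h _ hψ
  simp only at this
  rw [this]
  exact hb _ hψ

theorem rnk_lt (h : WFE A E) : ∀ u ∈ keys E, ∀ v ∈ keys E, v ∈ (dfn E u).vars →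
    rnk E v < rnk E u := by
  induction E with
  | nil => intro u hu; simp [keys] at hu
  | cons p E ih =>
    obtain ⟨q, ψ⟩ := p
    intro u hu v hv huv
    obtain ⟨⟨h1, h2, h3⟩, h4⟩ := h
    simp only [keys, List.map_cons, List.toFinset_cons, Finset.mem_insert] at hu hv
    by_cases huq : u = q
    · simp only [dfn, rnk, huq, if_true] at huv ⊢
      have hvq : v ≠ q := fun h => h1 (h ▸ huv)
      simp only [hvq, if_false]
      have := rnk_le E v
      omega
    · have hu' := hu.resolve_left huq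
      obtain ⟨ψ', hψ'⟩ := mem_keys.1 hu'
      simp only [dfn, rnk, huq, if_false] at huv ⊢
      have hd := dfn_mem h4 _ hψ'
      simp only at hd
      have hvq : v ≠ q := by
        rintro rfl
        rw [hd] at huv
        exact (h3 _ hψ').2 huv
      simp only [hvq, if_false]
      exact ih h4 u hu' v (hv.resolve_left hvq) huv

theorem Fr.suffix {D : List Fm} : ∀ {L : List Fm}, Fr F (L ++ D) → Fr F D := by
  intro L
  induction L with
  | nil => intro h; exact h
  | cons B L ih =>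
    intro h
    cases h with
    | rule h _ => exact ih h

theorem Ca.proof {A : Fm} {m : ℕ} (h : Ca F ∅ [A] m) : ∃ L, Fr F (A :: L) ∧
    psize (A :: L) ≤ m := by
  obtain ⟨D, h1, h2, h3⟩ := h [] Fr.nil (by simp)
  rw [List.append_nil] at h1 h2
  obtain ⟨D1, D2, rfl⟩ := List.append_of_mem (h2 A (by simp))
  refine ⟨D2, h1.suffix, ?_⟩
  rw [psize_append] at h3
  omega

/-- substituting a solution -/
theorem EFP.simulate (h : EFP F A E L) {G : ℕ → Fm} {M : ℕ} (hM : 1 ≤ M)
    (hG : ∀ n, (G n).size ≤ M) (Γ : Set Fm)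
    (hΓ : ∀ p ∈ E, iff (G p.1) (p.2.subst G) ∈ Γ) :
    Ca F Γ (L.map (Fm.subst G)) (psize L * M) := by
  induction h with
  | nil => simpa using (Ca.nil : Ca F Γ [] 0).le (Nat.zero_le _)
  | @rule E L B h hB ih =>
    obtain ⟨r, hr, τ, h1, h2⟩ := hB
    intro L' hL' hΓL'
    obtain ⟨D, h3, h4, h5⟩ := ih hΓ L' hL' hΓL'
    have h6 : FregeStep F (D ++ L') (B.subst G) := by
      refine ⟨r, hr, fun n => (τ n).subst G, by rw [h1, Fm.subst_subst], ?_⟩
      intro p hp
      rw [← Fm.subst_subst]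
      exact h4 _ (List.mem_map.2 ⟨_, h2 p hp, rfl⟩)
    refine ⟨B.subst G :: D, Fr.rule h3 h6, ?_, ?_⟩
    · intro C hC
      simp only [List.map_cons, List.mem_cons] at hC
      rcases hC with rfl | hC
      · simp
      · exact List.mem_cons_of_mem _ (h4 C hC)
    · rw [psize_cons, psize_cons]
      have := Fm.size_subst_le (σ := G) hM (A := B) (fun n _ => hG n)
      nlinarith
  | @ext E L q ψ h h1 h2 h3 ih =>
    have h4 := ih (fun p hp => hΓ p (List.mem_cons_of_mem _ hp))
    have h5 : Ca F Γ [(iff (var q) ψ).subst G] 0 := by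
      apply Ca.hyp
      have := hΓ (q, ψ) (by simp)
      simpa [iff, subst] using this
    refine ((h5.append h4).sub (by simp)).le ?_
    rw [psize_cons, add_mul]
    omega

/-- **the simulation**, from a solution of the extension axioms -/
theorem EFP.main (h : EFP F A E (A :: L)) {G : ℕ → Fm} {M K : ℕ} (hM : 1 ≤ M)
    (hG : ∀ n, (G n).size ≤ M) (hout : ∀ n ∈ A.vars, G n = var n)
    (hK : Ca F ∅ (E.map fun p => iff (G p.1) (p.2.subst G)) K) :
    ∃ L', Fr F (A :: L') ∧ psize (A :: L') ≤ K + psize (A :: L) * M := by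
  have h1 := h.simulate hM hG (∅ ∪ {B | B ∈ E.map fun p => iff (G p.1) (p.2.subst G)}) (by
    intro p hp
    right
    exact List.mem_map.2 ⟨p, hp, rfl⟩)
  have h2 := (hK.cut h1).sub (G' := [A]) (by
    intro B hB
    rw [List.mem_singleton] at hB
    subst hB
    rw [List.map_cons, subst_congr hout, subst_var]
    simp)
  exact h2.proof

/-- **The general theorem.** -/
theorem sim_dec (hF : IsFrege F) : ∃ C : ℕ, ∀ (A : Fm) (E : List (ℕ × Fm)) (L : List Fm),
    EFP F A E (A :: L) → ∀ b d : ℕ, (∀ p ∈ E, p.2.size ≤ b) → Dec (dfn E) (keys E) d →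
    ∃ L' : List Fm, Fr F (A :: L') ∧ psize (A :: L') ≤ psize (A :: L) * (C * (b + 1)) ^ (d + 3) := by
  obtain ⟨c, hc⟩ := solve hF
  refine ⟨160 * (c + 1), fun A E L h b d hb hd => ?_⟩
  have hw := h.wfe
  obtain ⟨G, g1, g2, g3⟩ := hc (dfn E) (rnk E) (keys E) (b + 1) (by omega)
    (fun u hu => (dfn_size hw hb u hu).trans (Nat.le_succ _)) (rnk_lt hw) (keys E) d hd
    (Finset.Subset.refl _)
  have hM : 1 ≤ (20 * (b + 1)) ^ d := Nat.one_le_pow _ _ (by omega)
  have g3' := g3.sub (G' := E.map fun p => iff (G p.1) (p.2.subst G)) (by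
    intro B hB
    obtain ⟨p, hp, rfl⟩ := List.mem_map.1 hB
    refine List.mem_map.2 ⟨p.1, Finset.mem_toList.2 (mem_keys.2 ⟨p.2, hp⟩), ?_⟩
    rw [eqn, dfn_mem hw p hp])
  obtain ⟨L', h1, h2⟩ := h.main hM g2 (fun n hn => g1 n fun h => key_notMem hw h hn) g3'
  refine ⟨L', h1, h2.trans ?_⟩
  have k1 : (keys E).card ≤ psize (A :: L) := by
    refine (List.toFinset_card_le _).trans ?_
    rw [List.length_map]
    exact h.length_le.trans (length_le_psize _)
  have k2 : (20 * (b + 1)) ^ d ≤ (160 * (b + 1)) ^ d := Nat.pow_le_pow_left (by omega) _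
  have k3 : 1 ≤ (b + 1) ^ 3 := Nat.one_le_pow _ _ (by omega)
  calc (keys E).card * (c * (b + 1) ^ 3 * (160 * (b + 1)) ^ d) + psize (A :: L) * (20 * (b + 1)) ^ d
      ≤ psize (A :: L) * (c * (b + 1) ^ 3 * (160 * (b + 1)) ^ d) +
        psize (A :: L) * (1 * (b + 1) ^ 3 * (160 * (b + 1)) ^ d) := by
        refine Nat.add_le_add (Nat.mul_le_mul_right _ k1) (Nat.mul_le_mul_left _ ?_)
        calc (20 * (b + 1)) ^ d ≤ (160 * (b + 1)) ^ d := k2
          _ ≤ 1 * (b + 1) ^ 3 * (160 * (b + 1)) ^ d := Nat.le_mul_of_pos_left _ (by omega)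
    _ = psize (A :: L) * ((c + 1) * (b + 1) ^ 3 * (160 * (b + 1)) ^ d) := by ring
    _ ≤ psize (A :: L) * (160 * (c + 1) * (b + 1)) ^ (d + 3) := by
        refine Nat.mul_le_mul_left _ ?_
        rw [pow_add, mul_comm ((160 * (c + 1) * (b + 1)) ^ d)]
        refine Nat.mul_le_mul ?_ (Nat.pow_le_pow_left (by nlinarith) _)
        calc (c + 1) * (b + 1) ^ 3 ≤ (c + 1) ^ 3 * (b + 1) ^ 3 :=
              Nat.mul_le_mul_right _ (Nat.le_self_pow (by norm_num) _)
          _ = ((c + 1) * (b + 1)) ^ 3 := by ring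
          _ ≤ _ := Nat.pow_le_pow_left (by nlinarith) _

end Pool.Agent.TH677.EF
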