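import Pool.Agent.TH677.EF.Dec

/-! # Solutions of the extension axioms, from a decomposition -/

set_option autoImplicit false

namespace Pool.Agent.TH677.EF

open Pool.Agent.H555R2.PF Pool.Agent.H555R2.PF.Fm

/-- Decomposition depth. The variable `u ∈ S` is defined by the formula `φ u`.

* `empty`: the empty set has depth at most every `d`;
* `guess`: adding one variable increases the depth by at most one;
* `split`: if no variable of `S` occurs in the definition of a variable of `T` and conversely, then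
  the depth of `S ∪ T` is the maximum;
* `comp`: if no variable of `T` occurs in the definition of a variable of `S`, then the depth of
  `S ∪ T` is at most the sum. -/
inductive Dec (φ : ℕ → Fm) : Finset ℕ → ℕ → Prop
  | empty (d : ℕ) : Dec φ ∅ d
  | guess {S : Finset ℕ} {s d : ℕ} : s ∉ S → Dec φ S d → Dec φ (insert s S) (d + 1)
  | split {S T : Finset ℕ} {d : ℕ} : Disjoint S T → Dec φ S d → Dec φ T d →
      (∀ u ∈ S, ∀ v ∈ T, v ∉ (φ u).vars ∧ u ∉ (φ v).vars) → Dec φ (S ∪ T) d
  | comp {S T : Finset ℕ} {d e : ℕ} : Disjoint S T → Dec φ S d → Dec φ T e →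
      (∀ u ∈ S, ∀ v ∈ T, v ∉ (φ u).vars) → Dec φ (S ∪ T) (d + e)

variable {F : List Rule}

theorem Dec.mono {φ : ℕ → Fm} {S : Finset ℕ} {d : ℕ} (h : Dec φ S d) : ∀ {e : ℕ}, d ≤ e →
    Dec φ S e := by
  induction h with
  | empty d => intro e _; exact Dec.empty e
  | @guess S s d hs hS ih =>
    intro e he
    obtain ⟨e', rfl⟩ : ∃ e', e = e' + 1 := ⟨e - 1, by omega⟩
    exact Dec.guess hs (ih (by omega))
  | @split S T d hd hS hT hv ihS ihT =>
    intro e he
    exact Dec.split hd (ihS he) (ihT he) hv
  | @comp S T d e hd hS hT hv ihS ihT =>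
    intro f hf
    obtain ⟨d', rfl⟩ : ∃ d', f = d' + e := ⟨f - e, by omega⟩
    exact Dec.comp hd (ihS (by omega)) hT hv

theorem solve (hF : IsFrege F) : ∃ c : ℕ, ∀ (φ : ℕ → Fm) (rk : ℕ → ℕ) (X : Finset ℕ) (b : ℕ),
    1 ≤ b → (∀ u ∈ X, (φ u).size ≤ b) →
    (∀ u ∈ X, ∀ v ∈ X, v ∈ (φ u).vars → rk v < rk u) →
    ∀ (S : Finset ℕ) (d : ℕ), Dec φ S d → S ⊆ X →
    ∃ G : ℕ → Fm, (∀ n, n ∉ S → G n = var n) ∧ (∀ n, (G n).size ≤ (20 * b) ^ d) ∧
      Ca F ∅ (S.toList.map (eqn φ G)) (S.card * (c * b ^ 3 * (160 * b) ^ d)) := by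
  classical
  obtain ⟨c, hc⟩ := guess_step hF
  refine ⟨c, fun φ rk X b hb hφ hrk S d hS => ?_⟩
  have h20 : 1 ≤ 20 * b := by omega
  have h160 : 1 ≤ 160 * b := by omega
  induction hS with
  | empty d =>
    intro _
    refine ⟨fun n => var n, fun _ _ => rfl, fun n => ?_, ?_⟩
    · simp only [size]
      exact Nat.one_le_pow _ _ h20
    · simpa using (Ca.nil : Ca F ∅ [] 0)
  | @guess S s d hs hS ih =>
    intro hX
    obtain ⟨G, g1, g2, g3⟩ := ih ((Finset.subset_insert _ _).trans hX)
    obtain ⟨k1, k2, k3⟩ := hc φ rk S s b ((20 * b) ^ d) _ G hb (Nat.one_le_pow _ _ h20) hs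
      (fun u hu => hφ u (hX hu)) (fun u hu v hv h => hrk u (hX hu) v (hX hv) h) g1 g2 g3
    refine ⟨_, k1, fun n => (k2 n).trans (by rw [pow_succ]; exact (mul_comm _ _).le), k3.le ?_⟩
    rw [Finset.card_insert_of_notMem hs]
    have h1 : (20 * b) ^ d ≤ (160 * b) ^ d := Nat.pow_le_pow_left (by omega) _
    have h2 : 9 * (160 * b) ^ d ≤ (160 * b) ^ (d + 1) := by
      rw [pow_succ, mul_comm]
      exact Nat.mul_le_mul_left _ (by omega)
    calc 8 * (S.card * (c * b ^ 3 * (160 * b) ^ d)) +
          (S.card + 1) * (c * (b * (b * (b * (20 * b) ^ d))))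
        ≤ 8 * ((S.card + 1) * (c * b ^ 3 * (160 * b) ^ d)) +
          (S.card + 1) * (c * (b * (b * (b * (160 * b) ^ d)))) := by gcongr; omega
      _ = (S.card + 1) * (c * b ^ 3) * (9 * (160 * b) ^ d) := by ring
      _ ≤ (S.card + 1) * (c * b ^ 3) * (160 * b) ^ (d + 1) := Nat.mul_le_mul_left _ h2
      _ = _ := by ring
  | @split S T d hd hS hT hv ihS ihT =>
    intro hX
    obtain ⟨GS, s1, s2, s3⟩ := ihS (Finset.subset_union_left.trans hX)
    obtain ⟨GT, t1, t2, t3⟩ := ihT (Finset.subset_union_right.trans hX)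
    refine ⟨fun n => if n ∈ T then GT n else GS n, ?_, ?_, ?_⟩
    · intro n hn
      rw [Finset.mem_union, not_or] at hn
      simp only [hn.2, if_false]
      exact s1 n hn.1
    · intro n
      simp only
      split_ifs
      · exact t2 n
      · exact s2 n
    · refine ((s3.append t3).sub ?_).le ?_
      · intro B hB
        obtain ⟨u, hu, rfl⟩ := List.mem_map.1 hB
        rw [Finset.mem_toList, Finset.mem_union] at hu
        rcases hu with hu | hu
        · refine List.mem_append_left _ (List.mem_map.2 ⟨u, Finset.mem_toList.2 hu, ?_⟩)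
          have hut : u ∉ T := Finset.disjoint_left.1 hd hu
          simp only [eqn, hut, if_false]
          congr 1
          refine subst_congr fun n hn => ?_
          have : n ∉ T := fun h => (hv u hu n h).1 hn
          simp [this]
        · refine List.mem_append_right _ (List.mem_map.2 ⟨u, Finset.mem_toList.2 hu, ?_⟩)
          simp only [eqn, hu, if_true]
          congr 1
          refine subst_congr fun n hn => ?_
          by_cases h : n ∈ T
          · simp [h]
          · have h' : n ∉ S := fun h' => (hv n h' u hu).2 hn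
            simp only [h, if_false]
            rw [s1 n h', t1 n h]
      · rw [Finset.card_union_of_disjoint hd, add_mul]
  | @comp S T d e hd hS hT hv ihS ihT =>
    intro hX
    obtain ⟨GS, s1, s2, s3⟩ := ihS (Finset.subset_union_left.trans hX)
    obtain ⟨GT, t1, t2, t3⟩ := ihT (Finset.subset_union_right.trans hX)
    have hM : 1 ≤ (20 * b) ^ d := Nat.one_le_pow _ _ h20
    have t3' := t3.inst (σ := GS) hM s2
    refine ⟨fun n => (GT n).subst GS, ?_, ?_, ?_⟩
    · intro n hn
      rw [Finset.mem_union, not_or] at hn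
      simp only
      rw [t1 n hn.2]
      exact s1 n hn.1
    · intro n
      rw [pow_add, mul_comm]
      exact subst_size hM (t2 n) s2
    · refine ((s3.append t3').sub ?_).le ?_
      · intro B hB
        obtain ⟨u, hu, rfl⟩ := List.mem_map.1 hB
        rw [Finset.mem_toList, Finset.mem_union] at hu
        rcases hu with hu | hu
        · refine List.mem_append_left _ (List.mem_map.2 ⟨u, Finset.mem_toList.2 hu, ?_⟩)
          have hut : u ∉ T := Finset.disjoint_left.1 hd hu
          simp only [eqn]
          rw [t1 u hut]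
          congr 1
          refine subst_congr fun n hn => ?_
          rw [t1 n (fun h => hv u hu n h hn)]
          rfl
        · refine List.mem_append_right _ (List.mem_map.2 ⟨eqn φ GT u, List.mem_map.2
            ⟨u, Finset.mem_toList.2 hu, rfl⟩, ?_⟩)
          rw [eqn_subst]
      · rw [Finset.card_union_of_disjoint hd, add_mul]
        have h1 : (160 * b) ^ d ≤ (160 * b) ^ (d + e) :=
          Nat.pow_le_pow_right h160 (Nat.le_add_right _ _)
        have h2 : (160 * b) ^ e * (20 * b) ^ d ≤ (160 * b) ^ (d + e) := by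
          rw [pow_add, mul_comm]
          exact Nat.mul_le_mul_right _ (Nat.pow_le_pow_left (by omega) _)
        refine Nat.add_le_add (Nat.mul_le_mul_left _ (Nat.mul_le_mul_left _ h1)) ?_
        calc T.card * (c * b ^ 3 * (160 * b) ^ e) * (20 * b) ^ d
            = T.card * (c * b ^ 3 * ((160 * b) ^ e * (20 * b) ^ d)) := by ring
          _ ≤ _ := Nat.mul_le_mul_left _ (Nat.mul_le_mul_left _ h2)

end Pool.Agent.TH677.EF
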