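import Pool.Agent.TH677.EF.Solve
import Pool.Agent.W929.TW.Tree

/-! # Small treewidth gives small decomposition depth -/

set_option autoImplicit false

namespace Pool.Agent.TH677.EF

open Pool.Agent.H555R2.PF Pool.Agent.H555R2.PF.Fm Pool.Agent.W929.TW Finset

theorem Dec.guesses {φ : ℕ → Fm} {P : Finset ℕ} {d : ℕ} (h : Dec φ P d) : ∀ B : Finset ℕ,
    Disjoint P B → Dec φ (P ∪ B) (d + B.card) := by
  intro B
  induction B using Finset.induction_on with
  | empty => intro _; simpa using h
  | insert b B hb ih =>
    intro hd
    rw [disjoint_insert_right] at hd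
    have h1 := Dec.guess (φ := φ) (s := b) (S := P ∪ B) (by
      rw [mem_union, not_or]; exact ⟨hd.1, hb⟩) (ih hd.2)
    rw [union_insert, card_insert_of_notMem hb]
    exact h1

theorem Dec.classes {φ : ℕ → Fm} {P : Finset ℕ} {d : ℕ} {ι : Type} [DecidableEq ι] (cl : ℕ → ι)
    (h : ∀ i, Dec φ (P.filter fun u => cl u = i) d)
    (he : ∀ u ∈ P, ∀ v ∈ P, v ∈ (φ u).vars → cl u = cl v) : Dec φ P d := by
  have h1 : ∀ I : Finset ι, Dec φ (P.filter fun u => cl u ∈ I) d := by
    intro I
    induction I using Finset.induction_on with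
    | empty => simpa using Dec.empty (φ := φ) d
    | insert i I hi ih =>
      have e : (P.filter fun u => cl u ∈ insert i I) =
          (P.filter fun u => cl u = i) ∪ (P.filter fun u => cl u ∈ I) := by
        ext u
        simp only [mem_filter, mem_insert, mem_union]
        tauto
      rw [e]
      refine Dec.split ?_ (h i) ih ?_
      · rw [disjoint_left]
        intro u h1 h2
        rw [mem_filter] at h1 h2
        exact hi (h1.2 ▸ h2.2)
      · intro u hu v hv
        rw [mem_filter] at hu hv
        constructor
        · intro h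
          have := he u hu.1 v hv.1 h
          rw [hu.2] at this
          exact hi (this ▸ hv.2)
        · intro h
          have := he v hv.1 u hu.1 h
          rw [hu.2] at this
          exact hi (this ▸ hv.2)
  have h2 := h1 (P.image cl)
  rwa [filter_true_of_mem (fun u hu => mem_image_of_mem _ hu)] at h2

/-- A tree decomposition of width at most `w` of the graph whose vertices are the extension
variables in `X` and in which every variable is joined to the extension variables that occur in
its definition. -/
structure TreeDec (φ : ℕ → Fm) (X : Finset ℕ) (w : ℕ) where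
  size : ℕ
  tree : SimpleGraph (Fin size)
  isTree : tree.IsTree
  bag : Fin size → Finset ℕ
  card_bag : ∀ t, (bag t).card ≤ w + 1
  mem_bag : ∀ u ∈ X, ∃ t, u ∈ bag t
  edge_bag : ∀ u ∈ X, ∀ v ∈ X, v ∈ (φ u).vars → ∃ t, u ∈ bag t ∧ v ∈ bag t
  connected : ∀ u ∈ X, (tree.induce {t | u ∈ bag t}).Preconnected

theorem conn_self {W : Type} {G : SimpleGraph W} (hG : G.IsTree) (v0 : W) {S : Set W}
    (hS : (G.induce S).Preconnected) {x y c : W} (hx : x ∈ S) (hy : y ∈ S)
    (hcx : (ofTree hG v0).Anc c x) (hcy : ¬ (ofTree hG v0).Anc c y) : c ∈ S := by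
  obtain ⟨p⟩ := hS ⟨x, hx⟩ ⟨y, hy⟩
  obtain ⟨s, s', h1, h2, h3, h4, h5⟩ :=
    walk_cross (Q := fun t => (ofTree hG v0).Anc c t) p hcx hcy
  rcases adj_cases hG v0 h3 with h | h
  · rcases (ofTree hG v0).anc_cases h4 with h6 | h6
    · rw [h6]; exact h1
    · rw [h] at h6
      exact absurd h6 h5
  · exfalso
    apply h5
    exact (ofTree hG v0).anc_trans h4 ⟨1, h⟩

theorem child_exists {W : Type} (R : RT W) {c x : W} (h : R.Anc c x) (hx : x ≠ c) :
    ∃ c', c' ≠ R.root ∧ R.par c' = c ∧ R.Anc c' x := by
  classical
  have h' : ∃ i, R.par^[i] x = c := h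
  have h1 := Nat.find_spec h'
  have h2 : Nat.find h' ≠ 0 := by
    intro h0
    rw [h0] at h1
    exact hx h1
  obtain ⟨i, hi⟩ := Nat.exists_eq_succ_of_ne_zero h2
  have h3 := Nat.find_min h' (show i < Nat.find h' by omega)
  rw [hi, Function.iterate_succ_apply'] at h1
  refine ⟨R.par^[i] x, ?_, h1, ⟨i, rfl⟩⟩
  intro h4
  rw [h4, R.par_root] at h1
  exact h3 (by rw [h4, h1])

theorem TreeDec.dec {φ : ℕ → Fm} {X : Finset ℕ} {w : ℕ} (T : TreeDec φ X w) :
    ∀ (n : ℕ) (S : Finset ℕ), S ⊆ X → S.card ≤ n → Dec φ S ((w + 1) * Nat.log 2 (2 * S.card)) := by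
  classical
  intro n
  induction n with
  | zero =>
    intro S _ hS
    have : S = ∅ := card_eq_zero.1 (by omega)
    rw [this]
    exact Dec.empty _
  | succ n ih =>
    intro S hSX hSn
    rcases S.eq_empty_or_nonempty with rfl | hSne
    · exact Dec.empty _
    have hcard : 1 ≤ S.card := hSne.card_pos
    obtain ⟨v0⟩ : Nonempty (Fin T.size) := T.isTree.connected.nonempty
    obtain ⟨R, hR⟩ : ∃ R, R = ofTree T.isTree v0 := ⟨_, rfl⟩
    have cpar : ∀ u ∈ X, ∀ x y c, u ∈ T.bag x → u ∈ T.bag y → R.Anc c x → ¬ R.Anc c y →
        u ∈ T.bag (R.par c) := by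
      intro u hu x y c hx hy h1 h2
      rw [hR] at h1 h2 ⊢
      exact conn_ofTree T.isTree v0 (T.connected u hu) hx hy h1 h2
    have cself : ∀ u ∈ X, ∀ x y c, u ∈ T.bag x → u ∈ T.bag y → R.Anc c x → ¬ R.Anc c y →
        u ∈ T.bag c := by
      intro u hu x y c hx hy h1 h2
      rw [hR] at h1 h2
      exact conn_self T.isTree v0 (T.connected u hu) hx hy h1 h2
    -- the variables inside the subtree at `c`
    obtain ⟨In, hIn⟩ : ∃ In : Fin T.size → Finset ℕ,
      In = fun c => S.filter fun j => ∀ x, j ∈ T.bag x → R.Anc c x := ⟨_, rfl⟩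
    obtain ⟨c, hc1, hc2⟩ := exists_max_image (univ.filter fun c => S.card < 2 * (In c).card)
      R.rank ⟨R.root, by
        rw [mem_filter]
        refine ⟨mem_univ _, ?_⟩
        have : In R.root = S := by
          rw [hIn]
          exact filter_true_of_mem fun j _ x _ => R.anc_root x
        rw [this]
        omega⟩
    rw [mem_filter] at hc1
    have hchild : ∀ c', c' ≠ R.root → R.par c' = c → 2 * (In c').card ≤ S.card := by
      intro c' h1 h2
      by_contra h3
      have h4 := hc2 c' (mem_filter.2 ⟨mem_univ _, by omega⟩)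
      have h5 := R.rank_lt c' h1
      rw [h2] at h5
      omega
    -- the child above a node
    obtain ⟨top, htop⟩ : ∃ top : Fin T.size → Option (Fin T.size), top = fun x =>
      if h : ∃ c', c' ≠ R.root ∧ R.par c' = c ∧ R.Anc c' x then some h.choose else none :=
      ⟨_, rfl⟩
    have top_some : ∀ x c', top x = some c' → c' ≠ R.root ∧ R.par c' = c ∧ R.Anc c' x := by
      intro x c' h
      rw [htop] at h
      simp only at h
      split_ifs at h with h1
      simp only [Option.some.injEq] at h
      rw [← h]
      exact h1.choose_spec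
    have top_eq : ∀ x c', c' ≠ R.root → R.par c' = c → R.Anc c' x → top x = some c' := by
      intro x c' h1 h2 h3
      have h4 : ∃ c', c' ≠ R.root ∧ R.par c' = c ∧ R.Anc c' x := ⟨c', h1, h2, h3⟩
      rw [htop]
      simp only [h4, dif_pos, Option.some.injEq]
      obtain ⟨g1, g2, g3⟩ := h4.choose_spec
      exact R.eq_of_par_eq g1 h1 g2 h2 g3 h3
    have top_none : ∀ x, top x = none → x = c ∨ ¬ R.Anc c x := by
      intro x h
      by_contra h1
      rw [not_or, not_not] at h1
      obtain ⟨c', g1, g2, g3⟩ := child_exists R h1.2 h1.1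
      rw [top_eq x c' g1 g2 g3] at h
      simp at h
    have top_const : ∀ j ∈ X, j ∉ T.bag c → ∀ x y, j ∈ T.bag x → j ∈ T.bag y → ∀ c',
        top x = some c' → top y = some c' := by
      intro j hj hjc x y hx hy c' h
      obtain ⟨h1, h2, h3⟩ := top_some x c' h
      apply top_eq y c' h1 h2
      by_contra h4
      have := cpar j hj x y c' hx hy h3 h4
      rw [h2] at this
      exact hjc this
    have top_const' : ∀ j ∈ X, j ∉ T.bag c → ∀ x y, j ∈ T.bag x → j ∈ T.bag y →
        top x = top y := by
      intro j hj hjc x y hx hy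
      cases hx' : top x with
      | some c' => rw [top_const j hj hjc x y hx hy c' hx']
      | none =>
        cases hy' : top y with
        | some c' => rw [top_const j hj hjc y x hy hx c' hy'] at hx'; simp at hx'
        | none => rfl
    -- the classes
    have hpick : ∀ j : ℕ, ∃ x : Fin T.size, j ∈ X → j ∈ T.bag x := by
      intro j
      by_cases hj : j ∈ X
      · obtain ⟨t, ht⟩ := T.mem_bag j hj
        exact ⟨t, fun _ => ht⟩
      · exact ⟨v0, fun h => absurd h hj⟩
    choose pick hpick using hpick
    obtain ⟨P, hP⟩ : ∃ P, P = S.filter fun j => j ∉ T.bag c := ⟨_, rfl⟩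
    obtain ⟨B, hB⟩ : ∃ B, B = S.filter fun j => j ∈ T.bag c := ⟨_, rfl⟩
    have hcl : ∀ j ∈ P, ∀ x, j ∈ T.bag x → top x = top (pick j) := by
      intro j hj x hx
      rw [hP, mem_filter] at hj
      exact top_const' j (hSX hj.1) hj.2 x _ hx (hpick j (hSX hj.1))
    have hsmall : ∀ i, 2 * (P.filter fun u => top (pick u) = i).card ≤ S.card := by
      intro i
      cases i with
      | some c' =>
        by_cases hne : (P.filter fun u => top (pick u) = some c').Nonempty
        · obtain ⟨j0, hj0⟩ := hne
          rw [mem_filter] at hj0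
          obtain ⟨g1, g2, -⟩ := top_some _ _ hj0.2
          refine le_trans (Nat.mul_le_mul_left _ (card_le_card ?_)) (hchild c' g1 g2)
          intro j hj
          rw [mem_filter] at hj
          rw [hIn, mem_filter]
          have hj' := hj.1
          rw [hP, mem_filter] at hj'
          refine ⟨hj'.1, fun x hx => ?_⟩
          exact (top_some x c' ((hcl j hj.1 x hx).trans hj.2)).2.2
        · rw [not_nonempty_iff_eq_empty] at hne
          rw [hne]
          simp
      | none =>
        have h1 : (P.filter fun u => top (pick u) = none) ⊆ S \ In c := by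
          intro j hj
          rw [mem_filter] at hj
          have hj' := hj.1
          rw [hP, mem_filter] at hj'
          rw [mem_sdiff]
          refine ⟨hj'.1, fun h2 => ?_⟩
          rw [hIn, mem_filter] at h2
          have h3 := h2.2 (pick j) (hpick j (hSX hj'.1))
          rcases top_none _ hj.2 with h4 | h4
          · have := hpick j (hSX hj'.1)
            rw [h4] at this
            exact hj'.2 this
          · exact h4 h3
        have h2 := card_le_card h1
        have h3 : In c ⊆ S := by rw [hIn]; exact filter_subset _ _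
        rw [card_sdiff_of_subset h3] at h2
        have := hc1.2
        omega
    have hPdec : Dec φ P ((w + 1) * Nat.log 2 S.card) := by
      refine Dec.classes (fun j => top (pick j)) ?_ ?_
      · intro i
        have h1 := hsmall i
        have h2 := ih (P.filter fun u => top (pick u) = i) (by
          intro j hj
          rw [mem_filter, hP, mem_filter] at hj
          exact hSX hj.1.1) (by omega)
        exact h2.mono (Nat.mul_le_mul_left _ (Nat.log_mono_right h1))
      · intro u hu v hv huv
        have hu' := hu
        have hv' := hv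
        rw [hP, mem_filter] at hu' hv'
        obtain ⟨t, h1, h2⟩ := T.edge_bag u (hSX hu'.1) v (hSX hv'.1) huv
        show top (pick u) = top (pick v)
        rw [← hcl u hu t h1, ← hcl v hv t h2]
    have hdis : Disjoint P B := by
      rw [hP, hB]
      exact (disjoint_filter_filter_not _ _ _).symm
    have hun : P ∪ B = S := by
      rw [hP, hB, union_comm]
      exact filter_union_filter_not_eq _ _
    have hfin := hPdec.guesses B hdis
    rw [hun] at hfin
    refine hfin.mono ?_
    have hBc : B.card ≤ w + 1 := by
      refine (card_le_card ?_).trans (T.card_bag c)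
      intro j hj
      rw [hB, mem_filter] at hj
      exact hj.2
    have h3 : Nat.log 2 (2 * S.card) = Nat.log 2 S.card + 1 := by
      rw [mul_comm]
      exact Nat.log_mul_base (by norm_num) (by omega)
    rw [h3, mul_add, mul_one]
    omega

theorem TreeDec.depth {φ : ℕ → Fm} {X : Finset ℕ} {w : ℕ} (T : TreeDec φ X w) :
    Dec φ X ((w + 1) * (Nat.log 2 X.card + 1)) := by
  have h := T.dec X.card X (Subset.refl _) le_rfl
  refine h.mono (Nat.mul_le_mul_left _ ?_)
  rcases Nat.eq_zero_or_pos X.card with h0 | h0
  · rw [h0]; simp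
  · rw [mul_comm, Nat.log_mul_base (by norm_num) (by omega)]

end Pool.Agent.TH677.EF
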